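import Pool.Agent.H414.GV.Spec
import Pool.Graph.R_seed8.Helper602.MK.J3

/-!
# Brun-Titchmarsh in intervals
-/

set_option autoImplicit false

namespace Pool.Agent.H414.GV

open Finset
open Pool.Agent.H414.LT (primesUpTo blk kk)
open Pool.Agent.H414.DF (e2)

namespace Bti

theorem card_le (x h : ℕ) : ((Ioc x (x + h)).filter Nat.Prime).card ≤
    ((Finset.range h).filter (fun k => ((x + 1) + k * 1).Prime)).card := by
  classical
  apply Finset.card_le_card_of_injOn (fun n => n - (x + 1))
  · intro n hn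
    simp only [Finset.coe_filter, Finset.mem_Ioc, Set.mem_ofPred_eq] at hn
    simp only [Finset.coe_filter, Finset.mem_range, Set.mem_ofPred_eq]
    refine ⟨by omega, ?_⟩
    have h1 : x + 1 + (n - (x + 1)) * 1 = n := by omega
    rw [h1]
    exact hn.2
  · intro n hn m hm hnm
    simp only [Finset.coe_filter, Finset.mem_Ioc, Set.mem_ofPred_eq] at hn hm
    simp only at hnm
    omega

end Bti

/-- **Brun-Titchmarsh in intervals.** -/
theorem bti : S_BTI := by
  intro ε hε _
  obtain ⟨C, hC, hBT⟩ := Pool.Agent.Helper602.MK.BTLib.brun_titchmarsh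
  have hl2 : 0 < Real.log 2 := Real.log_pos (by norm_num)
  refine ⟨C / (ε * Real.log 2), ⌈1 / ε⌉₊, by positivity, fun k hk h x hh => ?_⟩
  have hk1 : 1 / ε ≤ k := (Nat.le_ceil _).trans (by exact_mod_cast hk)
  have hk2 : 1 ≤ ε * k := by
    rw [div_le_iff₀ hε] at hk1
    linarith
  have hk0 : (0 : ℝ) < k := lt_of_lt_of_le (by positivity) hk1
  have he : (2 : ℝ) ^ (ε * k) ≤ h := hh
  have hh2 : (2 : ℝ) ≤ h := by
    calc (2 : ℝ) = (2 : ℝ) ^ (1 : ℝ) := (Real.rpow_one 2).symm
      _ ≤ (2 : ℝ) ^ (ε * k) := Real.rpow_le_rpow_of_exponent_le (by norm_num) hk2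
      _ ≤ h := he
  have hh2' : 2 ≤ h := by exact_mod_cast hh2
  have hlog : ε * k * Real.log 2 ≤ Real.log h := by
    rw [← Real.log_rpow (by norm_num)]
    exact Real.log_le_log (by positivity) he
  have h1 := hBT (x + 1) 1 h le_rfl hh2'
  have h2 : (((Ioc x (x + h)).filter Nat.Prime).card : ℝ) ≤
      (((Finset.range h).filter (fun k => ((x + 1) + k * 1).Prime)).card : ℝ) := by
    exact_mod_cast Bti.card_le x h
  refine h2.trans (h1.trans ?_)
  have h3 : C * (((1 : ℕ) : ℝ) / (Nat.totient 1 : ℝ)) * (h : ℝ) = C * h := by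
    rw [Nat.totient_one]
    push_cast
    ring
  rw [h3]
  have h4 : C / (ε * Real.log 2) * h / k = C * h / (ε * k * Real.log 2) := by
    field_simp
  rw [h4]
  exact div_le_div_of_nonneg_left (by positivity) (by positivity) hlog

end Pool.Agent.H414.GV
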