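import Pool.Agent.H414.GV.Spec
import Pool.Graph.R_seed8.Helper602.MK.J3

/-!
The theorem of Brun and Titchmarsh in progressions, for the primes of a block (`S_BTP`).
-/

set_option autoImplicit false

namespace Pool.Agent.H414.GV

open Finset
open Pool.Agent.H414.LT (primesUpTo blk kk)
open Pool.Agent.H414.DF (e2)

namespace Btp

/-- The elements of the block in a residue class belong to a progression of length `2 ^ k / q + 2`. -/
theorem card_le (k q a : ℕ) (hq : 0 < q) :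
    ((blk k).filter fun n => n ≡ a [MOD q]).card ≤
      ((range (2 ^ k / q + 2)).filter
        (fun i => ((q * (2 ^ k / q) + a % q) + i * q).Prime)).card := by
  refine Finset.card_le_card_of_injOn (fun n => n / q - 2 ^ k / q) ?_ ?_
  · intro n hn
    rw [Finset.mem_coe, mem_filter, blk, mem_filter, mem_Ioc] at hn
    obtain ⟨⟨⟨h1, h2⟩, h3⟩, h4⟩ := hn
    have h4' : n % q = a % q := h4
    have e1 : 2 ^ k / q ≤ n / q := Nat.div_le_div_right h1.le
    have e2 : n / q < 2 ^ k / q + 2 ^ k / q + 2 := by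
      apply Nat.div_lt_of_lt_mul
      have h5 : 2 ^ k < q * (2 ^ k / q + 1) := Nat.lt_mul_div_succ _ hq
      have h6 : q * (2 ^ k / q + 2 ^ k / q + 2) = 2 * (q * (2 ^ k / q + 1)) := by ring
      have h7 : 2 ^ (k + 1) = 2 * 2 ^ k := by ring
      omega
    rw [Finset.mem_coe, mem_filter, mem_range]
    refine ⟨show n / q - 2 ^ k / q < 2 ^ k / q + 2 by omega, ?_⟩
    obtain ⟨i, hi⟩ := Nat.exists_eq_add_of_le e1
    have h8 : n / q - 2 ^ k / q = i := by omega
    have h9 : q * (2 ^ k / q) + a % q + (n / q - 2 ^ k / q) * q = n := by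
      rw [h8, ← h4']
      have h10 := Nat.div_add_mod n q
      rw [hi] at h10
      calc q * (2 ^ k / q) + n % q + i * q = q * (2 ^ k / q + i) + n % q := by ring
        _ = n := h10
    rw [h9]
    exact h3
  · intro n hn n' hn' h
    rw [Finset.mem_coe, mem_filter, blk, mem_filter, mem_Ioc] at hn hn'
    have h4 : n % q = a % q := hn.2
    have h4' : n' % q = a % q := hn'.2
    have e1 : 2 ^ k / q ≤ n / q := Nat.div_le_div_right hn.1.1.1.le
    have e1' : 2 ^ k / q ≤ n' / q := Nat.div_le_div_right hn'.1.1.1.le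
    have h5 : n / q - 2 ^ k / q = n' / q - 2 ^ k / q := h
    have h6 : n / q = n' / q := by omega
    rw [← Nat.div_add_mod n q, ← Nat.div_add_mod n' q, h6, h4, h4']

end Btp

theorem btp : S_BTP := by
  intro ε hε _
  obtain ⟨C₀, hC₀, H⟩ := Pool.Agent.Helper602.MK.BTLib.brun_titchmarsh
  have hl2 : 0 < Real.log 2 := Real.log_pos one_lt_two
  have hC0 : 0 < C₀ := lt_of_lt_of_le one_pos hC₀
  refine ⟨3 * C₀ / (ε * Real.log 2), 1, by positivity, fun k hk q a hq hqk => ?_⟩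
  have hq0r : (0 : ℝ) < q := by exact_mod_cast hq
  have hk0 : (0 : ℝ) < k := by exact_mod_cast hk
  have hphi : (0 : ℝ) < Nat.totient q := by exact_mod_cast Nat.totient_pos.2 hq
  have hqε : (q : ℝ) * (2 : ℝ) ^ (ε * k : ℝ) ≤ 2 ^ k := by
    calc (q : ℝ) * (2 : ℝ) ^ (ε * k : ℝ) ≤ (2 : ℝ) ^ ((1 - ε) * k : ℝ) * (2 : ℝ) ^ (ε * k : ℝ) :=
          mul_le_mul_of_nonneg_right hqk (Real.rpow_nonneg two_pos.le _)
      _ = (2 : ℝ) ^ ((k : ℕ) : ℝ) := by
          rw [← Real.rpow_add two_pos]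
          congr 1
          ring
      _ = 2 ^ k := Real.rpow_natCast 2 k
  have hεk : 0 < ε * k := by positivity
  have h1 : (1 : ℝ) ≤ (2 : ℝ) ^ (ε * k : ℝ) := Real.one_le_rpow one_le_two hεk.le
  have hqk1 : (q : ℝ) ≤ 2 ^ k := by
    calc (q : ℝ) = q * 1 := (mul_one _).symm
      _ ≤ q * (2 : ℝ) ^ (ε * k : ℝ) := mul_le_mul_of_nonneg_left h1 hq0r.le
      _ ≤ 2 ^ k := hqε
  obtain ⟨N, hN⟩ : ∃ N : ℕ, N = 2 ^ k / q + 2 := ⟨_, rfl⟩
  have hN2 : 2 ≤ N := by rw [hN]; exact Nat.le_add_left 2 _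
  have hNle : (N : ℝ) ≤ 3 * (2 ^ k / q) := by
    have h2 : ((2 ^ k / q : ℕ) : ℝ) ≤ (2 : ℝ) ^ k / q := by
      have h := Nat.cast_div_le (α := ℝ) (m := 2 ^ k) (n := q)
      rwa [Nat.cast_pow, Nat.cast_ofNat] at h
    have h3 : (1 : ℝ) ≤ 2 ^ k / q := by
      rw [le_div_iff₀ hq0r, one_mul]
      exact hqk1
    rw [hN]
    push_cast
    linarith
  have hNge : (2 : ℝ) ^ (ε * k : ℝ) ≤ N := by
    have h2 : (2 : ℝ) ^ (ε * k : ℝ) ≤ 2 ^ k / q := by
      rw [le_div_iff₀ hq0r, mul_comm]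
      exact hqε
    have h3 : (2 : ℝ) ^ k / q ≤ ((2 ^ k / q : ℕ) : ℝ) + 1 := by
      have h4 : (2 ^ k : ℕ) < q * (2 ^ k / q + 1) := Nat.lt_mul_div_succ _ hq
      have h5 : ((2 ^ k : ℕ) : ℝ) < ((q * (2 ^ k / q + 1) : ℕ) : ℝ) := by exact_mod_cast h4
      rw [div_le_iff₀ hq0r]
      push_cast at h5 ⊢
      linarith
    rw [hN]
    push_cast at h3 ⊢
    linarith
  have hlog : ε * k * Real.log 2 ≤ Real.log N := by
    calc ε * k * Real.log 2 = Real.log ((2 : ℝ) ^ (ε * k : ℝ)) :=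
          (Real.log_rpow two_pos _).symm
      _ ≤ Real.log N := Real.log_le_log (Real.rpow_pos_of_pos two_pos _) hNge
  have hc := Btp.card_le k q a hq
  rw [← hN] at hc
  have hH := H (q * (2 ^ k / q) + a % q) q N hq hN2
  calc (((blk k).filter fun n => n ≡ a [MOD q]).card : ℝ)
      ≤ (((range N).filter
          (fun i => ((q * (2 ^ k / q) + a % q) + i * q).Prime)).card : ℝ) := by
        exact_mod_cast hc
    _ ≤ C₀ * ((q : ℝ) / (Nat.totient q : ℝ)) * N / Real.log N := hH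
    _ ≤ C₀ * ((q : ℝ) / (Nat.totient q : ℝ)) * (3 * (2 ^ k / q)) / (ε * k * Real.log 2) := by
        refine div_le_div₀ (by positivity) ?_ (by positivity) hlog
        exact mul_le_mul_of_nonneg_left hNle (by positivity)
    _ = 3 * C₀ / (ε * Real.log 2) * 2 ^ k / ((q.totient : ℝ) * k) := by
        field_simp

end Pool.Agent.H414.GV
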