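import Pool.Agent.H414.GE.Defs

/-!
Definitions of the project GV: variances for sets of primes which cannot be distinguished from the
primes by twisted character sums. From `Pool.Agent.H414.GE`: `dev P y d l = π_P(y; d, l) - π_P(y) / φ(d)`,
`Close P w c`.
-/

set_option autoImplicit false

namespace Pool.Agent.H414.GV

open Finset
open Pool.Agent.H414.GE (dev)

/-- The variance of the elements `p ≤ y` of `P` in the reduced residue classes modulo `q`. -/
noncomputable def varQ (P : Set ℕ) (y q : ℕ) : ℝ :=
  ∑ a ∈ (range q).filter (Nat.Coprime q), dev P y q a ^ 2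

open Classical in
/-- The number of the elements of `P` in the interval `(n, n + h]`. -/
noncomputable def cnt (P : Set ℕ) (n h : ℕ) : ℝ := (((Ioc n (n + h)).filter (· ∈ P)).card : ℝ)

end Pool.Agent.H414.GV
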