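import Pool.Agent.H414.GV.Spec

/-! One block (`S_PB`) from the choice of the signs and the selection of the elements. -/

set_option autoImplicit false

namespace Pool.Agent.H414.GV

open Finset
open Pool.Agent.H414.LT (primesUpTo blk kk)
open Pool.Agent.H414.DF (e2)
open Pool.Agent.H414.GE (Close piP dev)

namespace Pb

theorem bi_le {k : ℕ} {b : ℝ} {I : Finset ℕ} {D : ℕ → Finset ℕ} (hD : IsD k b I D) {ω : ℕ → ℝ}
    (hω : ∀ u, ω u = 1 ∨ ω u = -1) (n : ℕ) : |bi ω I D n| ≤ 1 := by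
  unfold bi
  by_cases h : ∃ u ∈ I, n ∈ D u
  · obtain ⟨u, hu, hn⟩ := h
    rw [sum_eq_single u]
    · rw [if_pos hn]
      rcases hω u with h1 | h1 <;> rw [h1] <;> norm_num
    · intro v hv hvu
      rw [if_neg]
      intro hnv
      exact (disjoint_left.1 (hD.disj u hu v hv hvu.symm)) hn hnv
    · intro h1
      exact absurd hu h1
  · push Not at h
    rw [sum_eq_zero fun u hu => if_neg (h u hu)]
    norm_num

theorem la_pos (k : ℕ) : 0 < la k := by
  unfold la
  positivity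

theorem la_le {k : ℕ} (hk : 1 ≤ k) : la k ≤ 1 / 4 := by
  unfold la
  have h : (1 : ℝ) ≤ k := by exact_mod_cast hk
  exact one_div_le_one_div_of_le (by norm_num) (by linarith)

/-- the sum over the block of `bi` -/
theorem sum_bi {k : ℕ} {b : ℝ} {I : Finset ℕ} {D : ℕ → Finset ℕ} (hD : IsD k b I D) (ω : ℕ → ℝ)
    (y : ℕ) (c : ℕ → ℂ) :
    ∑ n ∈ (blk k).filter (· ≤ y), (bi ω I D n : ℂ) * c n =
      ∑ u ∈ I, (ω u : ℂ) * ∑ n ∈ (D u).filter (· ≤ y), c n := by
  have h1 : ∀ n, (bi ω I D n : ℂ) * c n = ∑ u ∈ I, if n ∈ D u then (ω u : ℂ) * c n else 0 := by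
    intro n
    unfold bi
    push_cast
    rw [sum_mul]
    refine sum_congr rfl fun u _ => ?_
    split_ifs
    · rfl
    · simp
  simp only [h1]
  rw [sum_comm]
  refine sum_congr rfl fun u hu => ?_
  rw [← sum_filter, mul_sum]
  refine sum_congr ?_ fun _ _ => rfl
  ext n
  simp only [mem_filter]
  constructor
  · rintro ⟨⟨-, h2⟩, h3⟩
    exact ⟨h3, h2⟩
  · rintro ⟨h2, h3⟩
    exact ⟨⟨hD.sub u hu h2, h3⟩, h2⟩

end Pb

theorem pb (hSG : S_SG) (hSE : GE.S_SE) : S_PB := by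
  obtain ⟨CG, hCG, h1⟩ := hSG
  obtain ⟨CS, hCS, h2⟩ := hSE
  have he : ∀ x : ℝ, 0 < e2 x := fun x => by
    unfold e2
    positivity
  refine ⟨CG + CS, by positivity, ?_⟩
  intro k b I D β I' B hD hB J _ W c hW hW1 hc
  obtain ⟨ω, hω, hs1, hs2, hs3⟩ := h1 k b I D β hD J W c hW hW1 hc
  have hρ : ∀ n, 0 ≤ 1 - la k - b * bi ω I D n ∧ 1 - la k - b * bi ω I D n ≤ 1 := by
    intro n
    have h3 := Pb.bi_le hD hω n
    have h4 := Pb.la_le hD.one
    have h5 := hD.le
    have h6 := hD.nonneg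
    have h7 : |b * bi ω I D n| ≤ b := by
      rw [abs_mul, abs_of_nonneg h6]
      calc b * |bi ω I D n| ≤ b * 1 := mul_le_mul_of_nonneg_left h3 h6
        _ = b := mul_one b
    have h8 := abs_le.1 h7
    constructor <;> linarith [h8.1, h8.2]
  obtain ⟨A, hA1, hA2, -, hA4⟩ := h2 k (fun n => 1 - la k - b * bi ω I D n) hD.one hρ J W c hW hW1
    hc I' B hB
  refine ⟨A, ω, hA1, hω, ?_, ?_, hs3, ?_⟩
  · intro j y
    have e1 : (∑ n ∈ (blk k).filter (· ≤ y), ((1 - la k - b * bi ω I D n : ℝ) : ℂ) * c j n) -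
        ((1 - la k : ℝ) : ℂ) * ∑ n ∈ (blk k).filter (· ≤ y), c j n =
        -((b : ℂ) * ∑ u ∈ I, (ω u : ℂ) * ∑ n ∈ (D u).filter (· ≤ y), c j n) := by
      rw [← Pb.sum_bi hD ω y (c j), mul_sum, mul_sum, ← sum_sub_distrib, ← sum_neg_distrib]
      refine sum_congr rfl fun n _ => ?_
      push_cast
      ring
    have e2' : ∑ n ∈ A.filter (· ≤ y), c j n -
        ((1 - la k : ℝ) : ℂ) * ∑ n ∈ (blk k).filter (· ≤ y), c j n =
        (∑ n ∈ A.filter (· ≤ y), c j n -
          ∑ n ∈ (blk k).filter (· ≤ y), ((1 - la k - b * bi ω I D n : ℝ) : ℂ) * c j n) +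
        ((∑ n ∈ (blk k).filter (· ≤ y), ((1 - la k - b * bi ω I D n : ℝ) : ℂ) * c j n) -
        ((1 - la k : ℝ) : ℂ) * ∑ n ∈ (blk k).filter (· ≤ y), c j n) := by ring
    rw [e2']
    calc _ ≤ CS * e2 (k / 2) * (k + Real.log (1 / W j)) +
          CG * e2 (k / 2) * (k + Real.log (1 / W j)) := by
          refine (norm_add_le _ _).trans (add_le_add (hA2 j y) ?_)
          rw [e1, norm_neg, norm_mul, Complex.norm_real, Real.norm_of_nonneg hD.nonneg]
          exact hs1 j y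
      _ = _ := by ring
  · refine hs2.trans ?_
    have h3 : 0 ≤ CS * e2 (k / 2) * k := by
      have := he (k / 2)
      positivity
    have h4 : (CG + CS) * e2 (k / 2) * k = CG * e2 (k / 2) * k + CS * e2 (k / 2) * k := by ring
    rw [h4]
    linarith
  · refine le_trans (le_of_eq ?_) hA4
    exact sum_congr rfl fun i _ => (sq_abs _).symm

end Pool.Agent.H414.GV
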