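import Pool.Agent.H414.GV.Spec

/-! All blocks: `S_PG` from `S_PC`. -/

set_option autoImplicit false

namespace Pool.Agent.H414.GV

open Finset
open Pool.Agent.H414.LT (primesUpTo blk kk)
open Pool.Agent.H414.DF (e2)
open Pool.Agent.H414.GE (Close piP dev)

namespace Pg

/-- the sum over the primes `≤ x` by blocks -/
theorem primes_blk (x : ℕ) (f : ℕ → ℂ) :
    ∑ p ∈ primesUpTo x, f p = ∑ k ∈ range x, ∑ p ∈ (blk k).filter (· ≤ x), f p := by
  classical
  have hmaps : ∀ p ∈ primesUpTo x, kk p ∈ range x := by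
    intro p hp
    simp only [primesUpTo, mem_filter, mem_range] at hp ⊢
    have h1 := (LT.two_le_kk hp.2.two_le).1
    have h2 : kk p < 2 ^ kk p := Nat.lt_two_pow_self
    omega
  rw [← sum_fiberwise_of_maps_to hmaps]
  refine sum_congr rfl fun k _ => sum_congr ?_ fun _ _ => rfl
  ext p
  simp only [mem_filter, LT.mem_blk, primesUpTo, mem_range]
  constructor
  · rintro ⟨⟨h1, h2⟩, h3⟩
    exact ⟨⟨h2, h3⟩, by omega⟩
  · rintro ⟨⟨h1, h2⟩, h3⟩
    exact ⟨⟨by omega, h1⟩, h2⟩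

theorem e2_half (k : ℕ) : e2 ((k : ℝ) / 2) = (√2) ^ k := by
  unfold e2
  rw [Real.sqrt_eq_rpow, ← Real.rpow_natCast, ← Real.rpow_mul (by norm_num)]
  congr 1
  ring

theorem s_ge : (4 : ℝ) / 3 ≤ √2 := by
  apply Real.le_sqrt_of_sq_le
  norm_num

/-- geometric series -/
theorem geo (K : ℕ) : ∑ k ∈ range (K + 1), (√2) ^ k ≤ 4 * (√2) ^ K := by
  induction K with
  | zero => simp
  | succ n ih =>
    rw [sum_range_succ]
    have h1 := s_ge
    have h2 : 0 ≤ (√2) ^ n := by positivity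
    have h3 : 4 * (√2) ^ n ≤ 3 * (√2) ^ (n + 1) := by
      rw [pow_succ]
      nlinarith
    linarith

theorem s_pow_le (x : ℕ) (hx : x ≠ 0) : (√2) ^ (Nat.log 2 x) ≤ √(x : ℝ) := by
  apply Real.le_sqrt_of_sq_le
  rw [← pow_mul, mul_comm, pow_mul, Real.sq_sqrt (by norm_num)]
  have := Nat.pow_log_le_self 2 hx
  exact_mod_cast this

theorem log2_le (x : ℕ) (hx : x ≠ 0) : ((Nat.log 2 x : ℕ) : ℝ) ≤ 2 * Real.log ((x : ℝ) + 2) := by
  have h1 := Nat.pow_log_le_self 2 hx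
  have h2 : ((2 : ℝ) ^ (Nat.log 2 x)) ≤ x := by exact_mod_cast h1
  have h3 : Real.log ((2 : ℝ) ^ (Nat.log 2 x)) ≤ Real.log ((x : ℝ) + 2) :=
    Real.log_le_log (by positivity) (by linarith)
  rw [Real.log_pow] at h3
  have h4 : (1 : ℝ) / 2 ≤ Real.log 2 := by
    have := Real.log_two_gt_d9
    linarith
  have h5 : (0 : ℝ) ≤ (Nat.log 2 x : ℕ) := Nat.cast_nonneg _
  nlinarith

/-- the sum of the errors of the blocks -/
theorem err_sum (x : ℕ) (C L : ℝ) (hC : 0 ≤ C) (hL : 0 ≤ L) (D : ℕ → ℝ)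
    (h0 : ∀ k, x ≤ 2 ^ k → D k ≤ 0) (h1 : ∀ k, D k ≤ C * e2 ((k : ℝ) / 2) * (k + L)) :
    ∑ k ∈ range x, D k ≤ 8 * C * √(x : ℝ) * (L + Real.log ((x : ℝ) + 2)) := by
  rcases Nat.eq_zero_or_pos x with rfl | hx
  · simp
  have hx0 : x ≠ 0 := hx.ne'
  set K := Nat.log 2 x with hK
  have hlog := log2_le x hx0
  rw [← hK] at hlog
  have hsx := s_pow_le x hx0
  rw [← hK] at hsx
  have hlog0 : 0 ≤ Real.log ((x : ℝ) + 2) := Real.log_nonneg (by
    have : (0 : ℝ) ≤ x := Nat.cast_nonneg _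
    linarith)
  have hlt : ∀ k, K < k → x ≤ 2 ^ k := by
    intro k hk
    have := Nat.lt_pow_succ_log_self (b := 2) (by norm_num) x
    rw [← hK, Nat.succ_eq_add_one] at this
    have h2 : 2 ^ (K + 1) ≤ 2 ^ k := Nat.pow_le_pow_right (by norm_num) hk
    omega
  have hterm : ∀ k ∈ range x, D k ≤ if k < K + 1 then C * (√2) ^ k * (K + L) else 0 := by
    intro k _
    split_ifs with hk
    · refine le_trans (h1 k) ?_
      rw [e2_half]
      have hkK : (k : ℝ) ≤ K := by exact_mod_cast Nat.lt_succ_iff.1 hk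
      exact mul_le_mul_of_nonneg_left (by linarith) (by positivity)
    · exact h0 k (hlt k (by omega))
  calc ∑ k ∈ range x, D k ≤ ∑ k ∈ range x, (if k < K + 1 then C * (√2) ^ k * (K + L) else 0) :=
        sum_le_sum hterm
    _ = ∑ k ∈ (range x).filter (· < K + 1), C * (√2) ^ k * (K + L) := by rw [sum_filter]
    _ ≤ ∑ k ∈ range (K + 1), C * (√2) ^ k * (K + L) := by
        refine sum_le_sum_of_subset_of_nonneg ?_ fun k _ _ => by positivity
        intro k hk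
        simp only [mem_filter, mem_range] at hk ⊢
        exact hk.2
    _ = C * (∑ k ∈ range (K + 1), (√2) ^ k) * (K + L) := by
        rw [mul_sum, sum_mul]
    _ ≤ C * (4 * (√2) ^ K) * (K + L) := by
        refine mul_le_mul_of_nonneg_right (mul_le_mul_of_nonneg_left (geo K) hC) (by positivity)
    _ ≤ C * (4 * √(x : ℝ)) * (2 * (L + Real.log ((x : ℝ) + 2))) := by
        refine mul_le_mul (mul_le_mul_of_nonneg_left (by linarith) hC) (by linarith) (by positivity)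
          (by positivity)
    _ = _ := by ring

section
variable {k₁ : ℕ} {A : ℕ → Finset ℕ}

/-- the set `P` -/
def PP (k₁ : ℕ) (A : ℕ → Finset ℕ) : Set ℕ := {p | p.Prime ∧ (k₁ ≤ kk p → p ∈ A (kk p))}

open Classical in
theorem filt_lt {k : ℕ} (hk : k < k₁) (x : ℕ) (f : ℕ → ℂ) :
    ∑ p ∈ (blk k).filter (· ≤ x), (if p ∈ PP k₁ A then f p else 0) =
      ∑ p ∈ (blk k).filter (· ≤ x), f p := by
  refine sum_congr rfl fun p hp => ?_
  rw [mem_filter, LT.mem_blk] at hp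
  rw [if_pos]
  refine ⟨hp.1.1, fun h => ?_⟩
  rw [hp.1.2] at h
  omega

open Classical in
theorem filt_ge {k : ℕ} (hk : k₁ ≤ k) (hA : A k ⊆ blk k) (x : ℕ) (f : ℕ → ℂ) :
    ∑ p ∈ (blk k).filter (· ≤ x), (if p ∈ PP k₁ A then f p else 0) =
      ∑ p ∈ (A k).filter (· ≤ x), f p := by
  rw [← sum_filter]
  refine sum_congr ?_ fun _ _ => rfl
  ext p
  simp only [mem_filter, LT.mem_blk, PP, Set.mem_ofPred_eq]
  constructor
  · rintro ⟨⟨⟨h1, h2⟩, h3⟩, h4, h5⟩
    subst h2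
    exact ⟨h5 hk, h3⟩
  · rintro ⟨h1, h2⟩
    have h3 := LT.mem_blk.1 (hA h1)
    obtain ⟨h3, rfl⟩ := h3
    exact ⟨⟨⟨h3, rfl⟩, h2⟩, h3, fun _ => h1⟩


open Classical in
/-- the elements of `P` in a subset of a block -/
theorem filt_B {k : ℕ} (hk : k₁ ≤ k) {B : Finset ℕ} (hB : B ⊆ blk k) :
    B.filter (· ∈ PP k₁ A) = A k ∩ B := by
  ext p
  simp only [mem_filter, mem_inter, PP, Set.mem_ofPred_eq]
  constructor
  · rintro ⟨h1, h2, h3⟩
    obtain ⟨h4, rfl⟩ := LT.mem_blk.1 (hB h1)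
    exact ⟨h3 hk, h1⟩
  · rintro ⟨h1, h2⟩
    obtain ⟨h4, rfl⟩ := LT.mem_blk.1 (hB h2)
    exact ⟨h2, h4, fun _ => h1⟩

end

end Pg

open Pg in
theorem pg (hPC : S_PC) : S_PG := by
  classical
  intro b I D β I' B k₀ hAdm c hc
  obtain ⟨C, hC, hPC⟩ := hPC
  have hG : ∀ k, k₀ ≤ k → ∃ (A : Finset ℕ) (ω : ℕ → ℝ), A ⊆ blk k ∧
    (∀ u, ω u = 1 ∨ ω u = -1) ∧
    (∀ (j q : ℕ) [NeZero q] (χ : DirichletCharacter ℂ q) (y : ℕ),
      ‖∑ n ∈ A.filter (· ≤ y), c j n * χ n -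
      ((1 - la k : ℝ) : ℂ) * ∑ n ∈ (blk k).filter (· ≤ y), c j n * χ n‖ ≤
      C * e2 (k / 2) * (k + Real.log ((j + 2) * q))) ∧
    b k * |∑ u ∈ I k, ω u * (D k u).card| ≤ C * e2 (k / 2) * k ∧ ∑ u ∈ I k, ω u * β k u ≤ 0 ∧
    ∑ i ∈ I' k, (((A ∩ B k i).card : ℝ) - ∑ n ∈ B k i, (1 - la k - b k * bi ω (I k) (D k) n)) ^ 2 ≤
      7 * (∑ i ∈ I' k, ((B k i).card : ℝ) + 1) :=
    fun k hk => hPC k (b k) (I k) (D k) (β k) (I' k) (B k) (hAdm k hk).1 (hAdm k hk).2 c hc
  choose! A ω hA hω hch hb hβ hs using hG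
  refine ⟨PP k₀ A, fun k => if k₀ ≤ k then 1 - la k else 1, C, fun p hp => hp.1, ?_, ?_, ?_⟩
  · intro k
    have hk0 : (0 : ℝ) ≤ k := Nat.cast_nonneg _
    simp only
    split_ifs with hk
    · have h1 : 0 ≤ la k := by unfold la; positivity
      have h2 : la k ≤ 1 / ((k : ℝ) + 1) := by
        unfold la
        apply div_le_div_of_nonneg_left (by norm_num) (by positivity)
        linarith
      constructor <;> linarith
    · constructor
      · have : 0 ≤ 1 / ((k : ℝ) + 1) := by positivity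
        linarith
      · exact le_refl _
  · refine ⟨8 * C, fun j q _ χ x => ?_⟩
    have hq : 1 ≤ q := Nat.one_le_iff_ne_zero.2 (NeZero.ne q)
    have hq' : (1 : ℝ) ≤ q := by exact_mod_cast hq
    have hj : (0 : ℝ) ≤ j := Nat.cast_nonneg _
    have hx' : (0 : ℝ) ≤ x := Nat.cast_nonneg _
    have hL : 0 ≤ Real.log (((j : ℝ) + 2) * q) := Real.log_nonneg (by nlinarith)
    have e1 : ∑ p ∈ (primesUpTo x).filter (· ∈ PP k₀ A), c j p * χ p =
        ∑ k ∈ range x, ∑ p ∈ (blk k).filter (· ≤ x),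
          (if p ∈ PP k₀ A then c j p * χ p else 0) := by
      rw [sum_filter]
      exact primes_blk x fun p => if p ∈ PP k₀ A then c j p * χ p else 0
    rw [e1, ← sum_sub_distrib]
    refine (norm_sum_le _ _).trans ?_
    refine (err_sum x C (Real.log (((j : ℝ) + 2) * q)) hC hL _ ?_ ?_).trans ?_
    · intro k hk
      have hemp : (blk k).filter (· ≤ x) = ∅ := by
        refine filter_eq_empty_iff.2 fun p hp => ?_
        unfold blk at hp
        rw [mem_filter, Finset.mem_Ioc] at hp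
        omega
      rw [hemp]
      simp
    · intro k
      simp only
      split_ifs with hk
      · rw [filt_ge hk (hA k hk)]
        exact hch k hk j q χ x
      · rw [filt_lt (by omega)]
        rw [Complex.ofReal_one, one_mul, sub_self, norm_zero]
        have : 0 ≤ e2 ((k : ℝ) / 2) := by
          unfold e2
          positivity
        positivity
    · have e2' : Real.log (((j : ℝ) + 2) * q * (x + 2)) =
          Real.log (((j : ℝ) + 2) * q) + Real.log ((x : ℝ) + 2) :=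
        Real.log_mul (by positivity) (by positivity)
      rw [e2']
  · intro k hk
    refine ⟨ω k, hω k hk, hb k hk, hβ k hk, ?_⟩
    refine le_trans (le_of_eq ?_) (hs k hk)
    refine sum_congr rfl fun i hi => ?_
    rw [filt_B hk ((hAdm k hk).2 i hi)]

end Pool.Agent.H414.GV
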