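import Pool.Agent.H414.GV.Spec

/-! Signs (proof of `S_SG`, by helper600). -/

set_option autoImplicit false

namespace Pool.Agent.H414.GV

open Finset
open Pool.Agent.H414.LT (primesUpTo blk kk)
open Pool.Agent.H414.DF (e2)

namespace Sg

/-- real or imaginary part -/
noncomputable def pr (b : Bool) (z : ℂ) : ℝ := bif b then z.re else z.im

theorem abs_pr_le (b : Bool) (z : ℂ) : |pr b z| ≤ ‖z‖ := by
  cases b
  · exact Complex.abs_im_le_norm z
  · exact Complex.abs_re_le_norm z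

theorem pr_sum {α : Type} (b : Bool) (s : Finset α) (f : α → ℂ) :
    pr b (∑ x ∈ s, f x) = ∑ x ∈ s, pr b (f x) := by
  cases b
  · exact Complex.im_sum _ _
  · exact Complex.re_sum _ _

theorem pr_mul (b : Bool) (r : ℝ) (z : ℂ) : pr b ((r : ℂ) * z) = r * pr b z := by
  cases b
  · exact Complex.im_ofReal_mul _ _
  · exact Complex.re_ofReal_mul _ _

theorem norm_le_pr (z : ℂ) : ‖z‖ ≤ |pr true z| + |pr false z| := Complex.norm_le_abs_re_add_abs_im z

/-- the functions of the tests -/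
def cc {J : Type} (c : J → ℕ → ℂ) (o : Option J) (n : ℕ) : ℂ := o.elim 1 fun j => c j n

/-- the weights of the tests -/
def WW {J : Type} (W : J → ℝ) (o : Option J) : ℝ := o.elim 1 W

/-- sign -/
def sgn (x : Bool) : ℝ := bif x then 1 else -1

theorem sgn_or (x : Bool) : sgn x = 1 ∨ sgn x = -1 := by
  cases x
  · exact Or.inr rfl
  · exact Or.inl rfl

theorem sgn_sq (x : Bool) : sgn x ^ 2 = 1 := by
  rcases sgn_or x with h | h <;> rw [h] <;> norm_num

theorem abs_sgn (x : Bool) : |sgn x| = 1 := by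
  rcases sgn_or x with h | h <;> rw [h] <;> norm_num

/-- the test sums over a cell -/
noncomputable def TS {J : Type} (c : J → ℕ → ℂ) (D : ℕ → Finset ℕ) (o : Option J) (y u : ℕ) : ℂ :=
  ∑ n ∈ (D u).filter (· ≤ y), cc c o n

theorem norm_TS {J : Type} (c : J → ℕ → ℂ) (hc : ∀ j n, ‖c j n‖ ≤ 1) (D : ℕ → Finset ℕ)
    (o : Option J) (y u : ℕ) : ‖TS c D o y u‖ ≤ ((D u).card : ℝ) := by
  have hcc : ∀ n, ‖cc c o n‖ ≤ 1 := by
    intro n
    cases o with
    | none => simp [cc]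
    | some j => exact hc j n
  unfold TS
  calc _ ≤ ∑ n ∈ (D u).filter (· ≤ y), ‖cc c o n‖ := norm_sum_le _ _
    _ ≤ ∑ n ∈ (D u).filter (· ≤ y), 1 := sum_le_sum fun n _ => hcc n
    _ = (((D u).filter (· ≤ y)).card : ℝ) := by simp
    _ ≤ ((D u).card : ℝ) := by exact_mod_cast card_filter_le _ _

theorem filter_min {k : ℕ} {B : Finset ℕ} (hB : B ⊆ blk k) (y : ℕ) :
    B.filter (· ≤ y) = B.filter (· ≤ min y (2 ^ (k + 1))) := by
  refine filter_congr fun n hn => ?_
  have h1 := hB hn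
  unfold LT.blk at h1
  rw [mem_filter, mem_Ioc] at h1
  have := h1.1.2
  rw [le_min_iff]
  exact ⟨fun h => ⟨h, this⟩, fun h => h.1⟩

/-- the sign of a cell -/
noncomputable def sg {I : Finset ℕ} (ω : {u // u ∈ I} → Bool) (u : ℕ) : ℝ :=
  if h : u ∈ I then sgn (ω ⟨u, h⟩) else 1

theorem sg_or {I : Finset ℕ} (ω : {u // u ∈ I} → Bool) (u : ℕ) : sg ω u = 1 ∨ sg ω u = -1 := by
  unfold sg
  split_ifs
  · exact sgn_or _
  · exact Or.inl rfl

theorem core (hEXP : GE.S_EXP) {k : ℕ} {b : ℝ} {I : Finset ℕ} {D : ℕ → Finset ℕ} (hD : IsD k b I D)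
    (J : Type) [Fintype J] (W : J → ℝ) (c : J → ℕ → ℂ) (hW : ∀ j, 0 < W j) (hW1 : ∑ j, W j ≤ 1)
    (hc : ∀ j n, ‖c j n‖ ≤ 1) : ∃ σ : ℕ → ℝ, (∀ u, σ u = 1 ∨ σ u = -1) ∧
    ∀ (o : Option J) (y : ℕ), b * ‖∑ u ∈ I, (σ u : ℂ) * TS c D o y u‖ ≤
      16 * e2 (k / 2) * (k + Real.log (1 / WW W o)) := by
  classical
  have hWW : ∀ o, 0 < WW W o := by
    intro o
    cases o with
    | none => exact one_pos
    | some j => exact hW j
  have hWW1 : ∀ o, WW W o ≤ 1 := by
    intro o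
    cases o with
    | none => exact le_refl _
    | some j => exact (single_le_sum (fun i _ => (hW i).le) (mem_univ j)).trans hW1
  have hE0 : 0 < e2 (k / 2) := by
    unfold DF.e2
    positivity
  have hEE : e2 (k / 2) ^ 2 = 2 ^ k := by
    unfold DF.e2
    rw [← Real.rpow_natCast ((2 : ℝ) ^ ((k : ℝ) / 2)) 2, ← Real.rpow_mul (by norm_num),
      ← Real.rpow_natCast 2 k]
    congr 1
    push_cast
    ring
  have hb0 : 0 ≤ b / e2 (k / 2) := div_nonneg hD.nonneg hE0.le
  obtain ⟨ω, -, h2, -⟩ := hEXP {u // u ∈ I} (fun _ => Bool) (fun _ _ => 1 / 2)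
    (Option J × Fin (2 ^ (k + 1) + 1) × Bool) (fun t => WW W t.1 / (4 * 2 ^ (k + 3)))
    (fun t s x => sgn x * (b / e2 (k / 2) * pr t.2.2 (TS c D t.1 t.2.1 s.1)))
    (fun _ => 0) 1
    (fun _ _ => by norm_num)
    (fun _ => by rw [Fintype.sum_bool]; norm_num)
    (fun t => div_pos (hWW _) (by positivity))
    (by
      rw [← sum_div, Fintype.sum_prod_type]
      simp only [sum_const, card_univ, Fintype.card_prod, Fintype.card_fin, Fintype.card_bool,
        nsmul_eq_mul]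
      rw [← mul_sum, Fintype.sum_option]
      have e1 : WW W none + ∑ j, WW W (some j) ≤ 2 := by
        have : ∑ j, WW W (some j) = ∑ j, W j := rfl
        rw [this]
        have : WW W none = 1 := rfl
        linarith
      rw [div_le_one (by positivity)]
      push_cast
      have e2 : (1 : ℝ) ≤ 2 ^ k := one_le_pow₀ (by norm_num)
      have e3 : (2 : ℝ) ^ (k + 1) = 2 * 2 ^ k := by rw [pow_succ]; ring
      have e4 : (2 : ℝ) ^ (k + 3) = 8 * 2 ^ k := by rw [pow_succ, pow_succ, pow_succ]; ring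
      rw [e3, e4]
      calc (2 * (2 : ℝ) ^ k + 1) * 2 * (WW W none + ∑ j, WW W (some j)) ≤
          (2 * (2 : ℝ) ^ k + 1) * 2 * 2 := by gcongr
        _ ≤ 4 * (8 * 2 ^ k) := by linarith)
    (fun t s => by
      rw [Fintype.sum_bool]
      have e1 : sgn true = 1 := rfl
      have e2 : sgn false = -1 := rfl
      rw [e1, e2]
      ring)
    (fun t s x => by
      rw [abs_mul, abs_sgn, one_mul, abs_mul, abs_of_nonneg hb0]
      have e1 : |pr t.2.2 (TS c D t.1 t.2.1 s.1)| ≤ ((D s.1).card : ℝ) :=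
        (abs_pr_le _ _).trans (norm_TS c hc D _ _ _)
      calc b / e2 (k / 2) * |pr t.2.2 (TS c D t.1 t.2.1 s.1)| ≤ b / e2 (k / 2) * ((D s.1).card : ℝ) :=
            mul_le_mul_of_nonneg_left e1 hb0
        _ = b * (D s.1).card / e2 (k / 2) := by ring
        _ ≤ 1 := (div_le_one hE0).2 (hD.amp s.1 s.2))
    (fun t => by
      calc ∑ s : {u // u ∈ I}, ∑ x : Bool, (1 / 2 : ℝ) *
          (sgn x * (b / e2 (k / 2) * pr t.2.2 (TS c D t.1 t.2.1 s.1))) ^ 2 ≤
          ∑ s : {u // u ∈ I}, (b / e2 (k / 2)) ^ 2 * ((D s.1).card : ℝ) ^ 2 := by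
            refine sum_le_sum fun s _ => ?_
            rw [Fintype.sum_bool, mul_pow (sgn true), mul_pow (sgn false), sgn_sq, sgn_sq]
            have e1 : pr t.2.2 (TS c D t.1 t.2.1 s.1) ^ 2 ≤ ((D s.1).card : ℝ) ^ 2 := by
              rw [← sq_abs]
              exact pow_le_pow_left₀ (abs_nonneg _)
                ((abs_pr_le _ _).trans (norm_TS c hc D _ _ _)) 2
            calc _ = (b / e2 (k / 2)) ^ 2 * pr t.2.2 (TS c D t.1 t.2.1 s.1) ^ 2 := by ring
              _ ≤ _ := mul_le_mul_of_nonneg_left e1 (sq_nonneg _)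
        _ = (b / e2 (k / 2)) ^ 2 * ∑ u ∈ I, ((D u).card : ℝ) ^ 2 := by
            rw [← mul_sum, sum_coe_sort I (fun u => ((D u).card : ℝ) ^ 2)]
        _ = b ^ 2 * ∑ u ∈ I, ((D u).card : ℝ) ^ 2 / 2 ^ k := by
            rw [div_pow, hEE, ← sum_div]; ring
        _ ≤ 1 := by
            rw [← sum_div, ← mul_div_assoc]
            exact (div_le_one (by positivity)).2 hD.var)
    one_pos (fun _ => le_refl _)
    (by simp)
  refine ⟨sg ω, sg_or ω, fun o y => ?_⟩
  have hTS : ∀ u ∈ I, TS c D o y u = TS c D o (min y (2 ^ (k + 1))) u := by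
    intro u hu
    unfold TS
    rw [filter_min (hD.sub u hu) y]
  rw [sum_congr rfl fun u hu => by rw [hTS u hu]]
  set y' := min y (2 ^ (k + 1)) with hy'
  have hy : y' < 2 ^ (k + 1) + 1 := by
    have := min_le_right y (2 ^ (k + 1))
    omega
  have h4 : ∀ d, |pr d (∑ u ∈ I, (sg ω u : ℂ) * TS c D o y' u)| * (b / e2 (k / 2)) ≤
      2 + Real.log (1 / (WW W o / (4 * 2 ^ (k + 3)))) := by
    intro d
    have h5 := h2 (o, ⟨y', hy⟩, d)
    simp only at h5
    have h6 : ∑ s : {u // u ∈ I}, sgn (ω s) * (b / e2 (k / 2) * pr d (TS c D o y' s.1)) =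
        pr d (∑ u ∈ I, (sg ω u : ℂ) * TS c D o y' u) * (b / e2 (k / 2)) := by
      rw [pr_sum, ← sum_coe_sort I (fun u => pr d ((sg ω u : ℂ) * TS c D o y' u)), sum_mul]
      refine sum_congr rfl fun s _ => ?_
      have h7 : sg ω s.1 = sgn (ω s) := by
        unfold sg
        rw [dif_pos s.2]
      rw [pr_mul, h7]
      ring
    rw [h6, abs_mul, abs_of_nonneg hb0] at h5
    exact h5
  have h6 : Real.log (1 / (WW W o / (4 * 2 ^ (k + 3)))) =
      Real.log (1 / WW W o) + (k + 5) * Real.log 2 := by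
    have e1 : 1 / (WW W o / (4 * 2 ^ (k + 3))) = 1 / WW W o * 2 ^ (k + 5) := by
      have := (hWW o).ne'
      rw [show (4 : ℝ) * 2 ^ (k + 3) = 2 ^ (k + 5) by
        rw [pow_add, pow_add]; ring]
      field_simp
    rw [e1, Real.log_mul (one_div_pos.2 (hWW o)).ne' (by positivity), Real.log_pow]
    push_cast
    ring
  have h7 : 0 ≤ Real.log (1 / WW W o) := by
    refine Real.log_nonneg ?_
    rw [le_div_iff₀ (hWW o)]
    linarith [hWW1 o]
  have h8 : Real.log 2 ≤ 1 := by linarith [Real.log_two_lt_d9]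
  have h9 : (1 : ℝ) ≤ k := by exact_mod_cast hD.one
  have h10 : 2 + Real.log (1 / (WW W o / (4 * 2 ^ (k + 3)))) ≤
      8 * (k + Real.log (1 / WW W o)) := by
    rw [h6]
    nlinarith
  have h11 := norm_le_pr (∑ u ∈ I, (sg ω u : ℂ) * TS c D o y' u)
  have h12 := h4 true
  have h13 := h4 false
  have h14 : ‖∑ u ∈ I, (sg ω u : ℂ) * TS c D o y' u‖ * (b / e2 (k / 2)) ≤
      16 * (k + Real.log (1 / WW W o)) := by
    have := mul_le_mul_of_nonneg_right h11 hb0
    linarith
  have h15 : b * ‖∑ u ∈ I, (sg ω u : ℂ) * TS c D o y' u‖ =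
      ‖∑ u ∈ I, (sg ω u : ℂ) * TS c D o y' u‖ * (b / e2 (k / 2)) * e2 (k / 2) := by
    field_simp
  rw [h15]
  calc _ ≤ 16 * (k + Real.log (1 / WW W o)) * e2 (k / 2) := mul_le_mul_of_nonneg_right h14 hE0.le
    _ = _ := by ring

end Sg

open Sg in
/-- the signs -/
theorem sg (hEXP : GE.S_EXP) : S_SG := by
  refine ⟨16, by norm_num, ?_⟩
  intro k b I D β hD J _ W c hW hW1 hc
  obtain ⟨σ, h1, h2⟩ := core hEXP hD J W c hW hW1 hc
  -- the choice of the global sign
  have key : ∃ e : ℝ, (e = 1 ∨ e = -1) ∧ e * ∑ u ∈ I, σ u * β u ≤ 0 := by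
    rcases le_total (∑ u ∈ I, σ u * β u) 0 with h | h
    · exact ⟨1, Or.inl rfl, by linarith⟩
    · exact ⟨-1, Or.inr rfl, by linarith⟩
  obtain ⟨e, he, hβ⟩ := key
  have hene : |e| = 1 := by rcases he with h | h <;> rw [h] <;> norm_num
  refine ⟨fun u => e * σ u, fun u => ?_, fun j y => ?_, ?_, ?_⟩
  · rcases he with h | h <;> rcases h1 u with h' | h' <;> simp [h, h']
  · have h3 : ∑ u ∈ I, ((e * σ u : ℝ) : ℂ) * ∑ n ∈ (D u).filter (· ≤ y), c j n =
        (e : ℂ) * ∑ u ∈ I, (σ u : ℂ) * TS c D (some j) y u := by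
      rw [mul_sum]
      refine sum_congr rfl fun u _ => ?_
      push_cast
      rw [mul_assoc]
      rfl
    rw [h3, norm_mul, Complex.norm_real, Real.norm_eq_abs, hene, one_mul]
    exact h2 (some j) y
  · have h4 := h2 none (2 ^ (k + 1))
    have h5 : ∑ u ∈ I, (σ u : ℂ) * TS c D none (2 ^ (k + 1)) u =
        ((∑ u ∈ I, σ u * (D u).card : ℝ) : ℂ) := by
      push_cast
      refine sum_congr rfl fun u hu => ?_
      unfold TS
      have h6 : (D u).filter (· ≤ 2 ^ (k + 1)) = D u := by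
        refine filter_true_of_mem fun n hn => ?_
        have h7 := hD.sub u hu hn
        unfold LT.blk at h7
        rw [mem_filter, mem_Ioc] at h7
        exact h7.1.2
      rw [h6]
      have h8 : ∀ n, cc c none n = 1 := fun n => rfl
      rw [sum_congr rfl fun n _ => h8 n, sum_const, nsmul_eq_mul, mul_one]
    rw [h5, Complex.norm_real, Real.norm_eq_abs] at h4
    have h6 : ∑ u ∈ I, e * σ u * (D u).card = e * ∑ u ∈ I, σ u * (D u).card := by
      rw [mul_sum]
      exact sum_congr rfl fun u _ => by ring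
    have h7 : Real.log (1 / WW W none) = 0 := by
      have : WW W none = 1 := rfl
      rw [this, div_one, Real.log_one]
    rw [h7, add_zero] at h4
    show b * |∑ u ∈ I, e * σ u * (D u).card| ≤ _
    rw [h6, abs_mul, hene, one_mul]
    exact h4
  · have h6 : ∑ u ∈ I, e * σ u * β u = e * ∑ u ∈ I, σ u * β u := by
      rw [mul_sum]
      exact sum_congr rfl fun u _ => by ring
    show ∑ u ∈ I, e * σ u * β u ≤ 0
    rw [h6]
    exact hβ

end Pool.Agent.H414.GV
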