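import Pool.Agent.H414.GV.Defs
import Pool.Agent.H414.GE.Spec

/-!
The statements which are put together in the project GV. Paper proofs are in the docstrings. Every
`S_X` is true and is to be proved as a theorem (with the hypotheses given in the task). `DF.e2 x = 2 ^ x`.
From `LT.St1`: `kk p` is the number `k` with `2^k < p ≤ 2^(k+1)` (`two_le_kk`,
`mem_blk : p ∈ blk k ↔ p.Prime ∧ kk p = k`). `LT.S_CHE` (Chebyshev: `c 2^k / (k + 1) ≤ #(blk k)`), `GE.S_EXP`, `GE.S_SE` are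
proved and may be used as hypotheses where the task says so.
-/

set_option autoImplicit false

namespace Pool.Agent.H414.GV

open Finset
open Pool.Agent.H414.LT (primesUpTo blk kk)
open Pool.Agent.H414.DF (e2)
open Pool.Agent.H414.GE (Close piP dev)

/-- `1 / (2 (k + 1))` -/
noncomputable def la (k : ℕ) : ℝ := 1 / (2 * ((k : ℝ) + 1))

/-- the sum of the signs `ω u` over the cells `D u`, `u ∈ I`, which contain `n` -/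
noncomputable def bi (ω : ℕ → ℝ) (I : Finset ℕ) (D : ℕ → Finset ℕ) (n : ℕ) : ℝ :=
  ∑ u ∈ I, if n ∈ D u then ω u else 0

/-- disjoint cells in the block `k`, and an amplitude `b` -/
structure IsD (k : ℕ) (b : ℝ) (I : Finset ℕ) (D : ℕ → Finset ℕ) : Prop where
  one : 1 ≤ k
  nonneg : 0 ≤ b
  le : b ≤ la k
  sub : ∀ u ∈ I, D u ⊆ blk k
  disj : ∀ u ∈ I, ∀ v ∈ I, u ≠ v → Disjoint (D u) (D v)
  amp : ∀ u ∈ I, b * (D u).card ≤ e2 (k / 2)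
  var : b ^ 2 * ∑ u ∈ I, ((D u).card : ℝ) ^ 2 ≤ 2 ^ k

/-- SIGNS. `GE.S_EXP` with `S` = the `u ∈ I`, `Ω u = Bool` (signs `±1` with probability `1/2`); tests: `j` in
`Option J` (`none`: the function `1`; weights `W j / 4`, `1/4` for `none`), `y ≤ 2^(k+1)` (at most `2^(k+2)` values), real and
imaginary parts, so weights `W j / (4 * 2^(k+3))`; `φ_u(ω) = ω b Re (∑_{n ∈ D u, n ≤ y} c j n) / 2^(k/2)`. `|φ| ≤ 1` by `IsD.amp`,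
`∑_u E φ^2 ≤ 1` by `IsD.var`. For `y > 2^(k+1)` the sums are those for `y = 2^(k+1)`. Finally `ω` and `-ω` satisfy the same
bounds, and for one of them `∑_u ω u β u ≤ 0`. -/
def S_SG : Prop := ∃ C : ℝ, 0 ≤ C ∧ ∀ (k : ℕ) (b : ℝ) (I : Finset ℕ) (D : ℕ → Finset ℕ) (β : ℕ → ℝ),
  IsD k b I D → ∀ (J : Type) [Fintype J] (W : J → ℝ) (c : J → ℕ → ℂ), (∀ j, 0 < W j) → ∑ j, W j ≤ 1 →
  (∀ j n, ‖c j n‖ ≤ 1) → ∃ ω : ℕ → ℝ, (∀ u, ω u = 1 ∨ ω u = -1) ∧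
    (∀ (j : J) (y : ℕ), b * ‖∑ u ∈ I, (ω u : ℂ) * ∑ n ∈ (D u).filter (· ≤ y), c j n‖ ≤
      C * e2 (k / 2) * (k + Real.log (1 / W j))) ∧
    b * |∑ u ∈ I, ω u * (D u).card| ≤ C * e2 (k / 2) * k ∧ ∑ u ∈ I, ω u * β u ≤ 0

/-- ONE BLOCK. `ω` from `S_SG`, `A` from `GE.S_SE` with `ρ n = 1 - la k - b bi ω I D n` for all `n` (at most one cell contains
`n`, so `|bi| ≤ 1`, and `b ≤ la k ≤ 1/4`: `0 ≤ ρ ≤ 1`), `I := I'`.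
`∑_{n ∈ blk k, n ≤ y} ρ(n) c(n) = (1 - la k) ∑_{n ∈ blk k, n ≤ y} c(n) - b ∑_u ω u ∑_{n ∈ D u, n ≤ y} c(n)`. -/
def S_PB : Prop := ∃ C : ℝ, 0 ≤ C ∧ ∀ (k : ℕ) (b : ℝ) (I : Finset ℕ) (D : ℕ → Finset ℕ) (β : ℕ → ℝ)
  (I' : Finset ℕ) (B : ℕ → Finset ℕ), IsD k b I D → (∀ i ∈ I', B i ⊆ blk k) →
  ∀ (J : Type) [Fintype J] (W : J → ℝ) (c : J → ℕ → ℂ), (∀ j, 0 < W j) → ∑ j, W j ≤ 1 →
  (∀ j n, ‖c j n‖ ≤ 1) → ∃ (A : Finset ℕ) (ω : ℕ → ℝ), A ⊆ blk k ∧ (∀ u, ω u = 1 ∨ ω u = -1) ∧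
    (∀ (j : J) (y : ℕ), ‖∑ n ∈ A.filter (· ≤ y), c j n -
      ((1 - la k : ℝ) : ℂ) * ∑ n ∈ (blk k).filter (· ≤ y), c j n‖ ≤
      C * e2 (k / 2) * (k + Real.log (1 / W j))) ∧
    b * |∑ u ∈ I, ω u * (D u).card| ≤ C * e2 (k / 2) * k ∧ ∑ u ∈ I, ω u * β u ≤ 0 ∧
    ∑ i ∈ I', (((A ∩ B i).card : ℝ) - ∑ n ∈ B i, (1 - la k - b * bi ω I D n)) ^ 2 ≤
      7 * (∑ i ∈ I', ((B i).card : ℝ) + 1)

/-- ONE BLOCK, ALL CHARACTERS. As `GE.S_GC` (file helper414_GE_Gc.lean in the store; copy that proof). Let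
`R = 2^(2^k)`. For `j < R`, `q ≤ R` apply `S_PB` with `J` = the set of the `(j, q, χ)`, `j < R`, `1 ≤ q ≤ R`, `χ` mod `q`,
`W = 1 / (4 (j + 2)^2 q^3)`. If `j ≥ R` or `q > R` then `log ((j + 2) q) ≥ 2^k log 2` and the difference is at most `2 * 2^k`
trivially (`0 ≤ 1 - la k ≤ 1`). -/
def S_PC : Prop := ∃ C : ℝ, 0 ≤ C ∧ ∀ (k : ℕ) (b : ℝ) (I : Finset ℕ) (D : ℕ → Finset ℕ) (β : ℕ → ℝ)
  (I' : Finset ℕ) (B : ℕ → Finset ℕ), IsD k b I D → (∀ i ∈ I', B i ⊆ blk k) →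
  ∀ (c : ℕ → ℕ → ℂ), (∀ j n, ‖c j n‖ ≤ 1) → ∃ (A : Finset ℕ) (ω : ℕ → ℝ), A ⊆ blk k ∧
    (∀ u, ω u = 1 ∨ ω u = -1) ∧
    (∀ (j q : ℕ) [NeZero q] (χ : DirichletCharacter ℂ q) (y : ℕ),
      ‖∑ n ∈ A.filter (· ≤ y), c j n * χ n -
      ((1 - la k : ℝ) : ℂ) * ∑ n ∈ (blk k).filter (· ≤ y), c j n * χ n‖ ≤
      C * e2 (k / 2) * (k + Real.log ((j + 2) * q))) ∧
    b * |∑ u ∈ I, ω u * (D u).card| ≤ C * e2 (k / 2) * k ∧ ∑ u ∈ I, ω u * β u ≤ 0 ∧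
    ∑ i ∈ I', (((A ∩ B i).card : ℝ) - ∑ n ∈ B i, (1 - la k - b * bi ω I D n)) ^ 2 ≤
      7 * (∑ i ∈ I', ((B i).card : ℝ) + 1)

open Classical in
/-- ALL BLOCKS. As `GE.S_GG` (file helper414_GE_Gg.lean in the store; copy that proof): `P` is the union of the sets `A_k`,
`k ≥ k₀`, of `S_PC` and of all `blk k`, `k < k₀`; `w k = 1 - la k` for `k ≥ k₀`, `1` for `k < k₀`. `P ∩ B = A_k ∩ B` for
`B ⊆ blk k`. -/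
def S_PG : Prop := ∀ (b : ℕ → ℝ) (I : ℕ → Finset ℕ) (D : ℕ → ℕ → Finset ℕ) (β : ℕ → ℕ → ℝ)
  (I' : ℕ → Finset ℕ) (B : ℕ → ℕ → Finset ℕ) (k₀ : ℕ),
  (∀ k, k₀ ≤ k → IsD k (b k) (I k) (D k) ∧ ∀ i ∈ I' k, B k i ⊆ blk k) →
  ∀ c : ℕ → ℕ → ℂ, (∀ j n, ‖c j n‖ ≤ 1) →
  ∃ (P : Set ℕ) (w : ℕ → ℝ) (C : ℝ), (∀ p ∈ P, p.Prime) ∧
    (∀ k : ℕ, 1 - 1 / ((k : ℝ) + 1) ≤ w k ∧ w k ≤ 1) ∧ Close P w c ∧
    ∀ k, k₀ ≤ k → ∃ ω : ℕ → ℝ, (∀ u, ω u = 1 ∨ ω u = -1) ∧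
      b k * |∑ u ∈ I k, ω u * (D k u).card| ≤ C * e2 (k / 2) * k ∧ ∑ u ∈ I k, ω u * β k u ≤ 0 ∧
      ∑ i ∈ I' k, ((((B k i).filter (· ∈ P)).card : ℝ) -
        ∑ n ∈ B k i, (1 - la k - b k * bi ω (I k) (D k) n)) ^ 2 ≤ 7 * (∑ i ∈ I' k, ((B k i).card : ℝ) + 1)

/-- BRUN-TITCHMARSH in progressions, from the library theorem `Pool.Agent.Helper602.MK.BTLib.brun_titchmarsh`
(`Pool.Graph.R_seed8.Helper602.MK.J3`; get it with `team-store fetch /workdir/pool Pool/Graph/R_seed8/Helper602/MK/J3.lean`):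
at most `C (q / φ(q)) N / log N` of the `a + i q`, `i < N`, are prime; the elements of `blk k` in the class of `a` are such
numbers (start with the least one) with `N = ⌊2^k / q⌋ + 2`, and `log N ≥ ε k log 2`, `N ≤ 3 * 2^k / q`. -/
def S_BTP : Prop := ∀ ε : ℝ, 0 < ε → ε < 1 → ∃ (C : ℝ) (k₀ : ℕ), 0 < C ∧ ∀ k, k₀ ≤ k → ∀ q a : ℕ,
  1 ≤ q → (q : ℝ) ≤ e2 ((1 - ε) * k) →
  (((blk k).filter fun n => n ≡ a [MOD q]).card : ℝ) ≤ C * 2 ^ k / ((q.totient : ℝ) * k)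

/-- BRUN-TITCHMARSH in intervals, from the same library theorem with modulus `1`. -/
def S_BTI : Prop := ∀ ε : ℝ, 0 < ε → ε < 1 → ∃ (C : ℝ) (k₀ : ℕ), 0 < C ∧ ∀ k, k₀ ≤ k → ∀ h x : ℕ,
  e2 (ε * k) ≤ h → (((Ioc x (x + h)).filter Nat.Prime).card : ℝ) ≤ C * h / k

/-- VARIANCE IN PROGRESSIONS. `S_PG` with, for `q = Q k`, `m = φ(q)`: `I k` = the `u < q` prime to `q`, `D k u` = the elements
of `blk k` in the class `u`, `N u = #(D k u)`, `b k = c₃ k √(m / 2^k)` with a small constant `c₃`. By `S_BTP`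
`N u ≤ C₁ 2^k / (m k)`, `#(blk k) ≤ C₂ 2^k / k` (`S_BTP` with `q = 1`). `IsD`: `b N u ≤ c₃ C₁ √(2^k / m) ≤ 2^(k/2)`,
`b^2 ∑ N u^2 ≤ b^2 (C₁ 2^k / (m k)) (C₂ 2^k / k) = c₃^2 C₁ C₂ 2^k ≤ 2^k`, `b ≤ c₃ k 2^(-ε k / 2) ≤ la k` for large `k`.
`N' = ∑_u N u`, `β k u = N u (N u - N' / m)`. `I' = I`, `B = D`.
For large `k`: `x u = #(P ∩ D u) = (1 - la) N u - b ω u N u + ν u` with `∑ ν^2 ≤ 7 (N' + 1) ≤ C 2^k / k`. Let `Π` be the map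
`(x u) ↦ (x u - (∑ x) / m)` on `ℝ^I` (an orthogonal projection).
`‖(1 - la) Π N - b Π (ω N)‖^2 ≥ b^2 ‖Π (ω N)‖^2` since `⟨Π N, ω N⟩ = ∑ ω u β u ≤ 0`, and
`‖Π (ω N)‖^2 = ∑ N u^2 - (∑ ω u N u)^2 / m ≥ N'^2 / m - (C 2^(k/2) k / b)^2 / m`, where `N' ≥ c 2^k / (k + 1) - q ≥ c' 2^k / k`
(`LT.S_CHE`; at most `q` elements of `blk k` are not prime to `q`: they divide `q`) and
`(C 2^(k/2) k / b)^2 = C^2 4^k / (c₃^2 m) ≤ N'^2 / 2` as `m ≥ k^3` (`φ(q) ≥ q^(1/2) / 2` or so, `q ≥ 2^(ε k)`). So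
`b^2 ‖Π (ω N)‖^2 ≥ c₃^2 k^2 (m / 2^k) (c'^2 4^k / (2 m k^2)) = c₅ 2^k`, and `‖Π x‖ ≥ (c₅ 2^k)^(1/2) - (C 2^k / k)^(1/2) ≥
(c₆ 2^k)^(1/2)`. Finally `x u = piP P 2^(k+1) q u - piP P 2^k q u`, and `‖Π x‖ ≤ ‖x - κ‖` for every constant `κ`, so
`‖Π x‖ ≤ varQ P 2^(k+1) q ^ (1/2) + varQ P 2^k q ^ (1/2)`. -/
def S_T4 : Prop := ∀ (ε : ℝ) (Q : ℕ → ℕ), 0 < ε → ε < 1 →
  (∃ k₀ : ℕ, ∀ k : ℕ, k₀ ≤ k → e2 (ε * k) ≤ Q k ∧ (Q k : ℝ) ≤ e2 ((1 - ε) * k)) →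
  ∀ c : ℕ → ℕ → ℂ, (∀ j n, ‖c j n‖ ≤ 1) →
  ∃ (P : Set ℕ) (w : ℕ → ℝ) (c₀ : ℝ) (k₁ : ℕ), 0 < c₀ ∧ (∀ p ∈ P, p.Prime) ∧
    (∀ k : ℕ, 1 - 1 / ((k : ℝ) + 1) ≤ w k ∧ w k ≤ 1) ∧ Close P w c ∧
    ∀ k, k₁ ≤ k → ∃ y : ℕ, (y = 2 ^ k ∨ y = 2 ^ (k + 1)) ∧ c₀ * 2 ^ k ≤ varQ P y (Q k)

/-- VARIANCE IN SHORT INTERVALS. Let `h = H k`. For `o = 0` and `o = 2 h` consider the cells
`(s_u, s_u + 4 h]`, `s_u = 2^k + o + 4 h u`, `u < m = (2^k - o) / (4 h)` (integer part), in `(2^k, 2^(k+1)]`, and the middle parts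
`(s_u + h, s_u + 3 h]`. The middle parts for both `o` cover the block except for at most `8 h` integers, so for one of the
`o` they contain at least `(#(blk k) - 8 h) / 2 ≥ c' 2^k / k` primes. `S_PG` with `I k = range m`, `D k u` = the primes of the
cell, `b k = c₃ k / √h`. By `S_BTI` (`N u = #(D k u) ≤ 4 C₁ h / k`) and `#(blk k) ≤ C₂ 2^k / k` (`S_BTI` with `h = 2^k`):
`b N u ≤ 4 c₃ C₁ √h ≤ 2^(k/2)`, `b^2 ∑ N u^2 ≤ 4 c₃^2 C₁ C₂ 2^k ≤ 2^k`, `b ≤ la k` for large `k`. `I' k` = the union of the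
`S_u = (s_u, s_u + 3 h]`, `B k n` = the primes in `(n, n + h]` (contained in the cell `u` for `n ∈ S_u`), `N_n` their number,
`α_n = (1 - la k) N_n - κ k n`, `β k u = ∑_{n ∈ S_u} α_n N_n`. For large `k`: `cnt P n h - κ k n = α_n - b ω u N_n + ν_n` for
`n ∈ S_u`, `∑ ν_n^2 ≤ 7 (∑_n N_n + 1) ≤ 7 (h #(blk k) + 1) ≤ C h 2^k / k`. `∑_n (α_n - b ω N_n)^2 ≥ b^2 ∑_n N_n^2` (as
`∑ ω u β u ≤ 0`) `≥ b^2 (∑_n N_n)^2 / 2^k`, and `∑_n N_n ≥ h * (number of the primes in the middle parts)` (such a prime `p` is in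
`(n, n + h]` for the `h` numbers `n ∈ [p - h, p - 1]`, which are in `S_u`) `≥ c' h 2^k / k`. So it is at least
`c₃^2 (k^2 / h) c'^2 h^2 2^k / k^2 = c₅ h 2^k`, and the whole sum is at least `((c₅ h 2^k)^(1/2) - (C h 2^k / k)^(1/2))^2`. -/
def S_T5 : Prop := ∀ (ε : ℝ) (H : ℕ → ℕ), 0 < ε → ε < 1 →
  (∃ k₀ : ℕ, ∀ k : ℕ, k₀ ≤ k → e2 (ε * k) ≤ H k ∧ (H k : ℝ) ≤ e2 ((1 - ε) * k)) → ∀ κ : ℕ → ℕ → ℝ,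
  ∀ c : ℕ → ℕ → ℂ, (∀ j n, ‖c j n‖ ≤ 1) →
  ∃ (P : Set ℕ) (w : ℕ → ℝ) (c₀ : ℝ) (k₁ : ℕ), 0 < c₀ ∧ (∀ p ∈ P, p.Prime) ∧
    (∀ k : ℕ, 1 - 1 / ((k : ℝ) + 1) ≤ w k ∧ w k ≤ 1) ∧ Close P w c ∧
    ∀ k, k₁ ≤ k → c₀ * H k * 2 ^ k ≤ ∑ n ∈ Ioc (2 ^ k) (2 ^ (k + 1)), (cnt P n (H k) - κ k n) ^ 2

end Pool.Agent.H414.GV
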