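import Pool.Agent.H414.GV.Spec

set_option autoImplicit false

namespace Pool.Agent.H414.GV

open Finset
open Pool.Agent.H414.LT (primesUpTo blk kk)
open Pool.Agent.H414.DF (e2)
open Pool.Agent.H414.GE (Close piP dev elts)

namespace T4

/-- a lower bound for the totient -/
theorem tot (q : ℕ) : q ≤ 2 * q.totient ^ 2 ∧ (¬ 2 ∣ q → q ≤ q.totient ^ 2) := by
  induction q using Nat.recOnPosPrimePosCoprime with
  | prime_pow p n hp hn =>
    rw [Nat.totient_prime_pow hp hn]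
    obtain ⟨m, rfl⟩ : ∃ m, n = m + 1 := ⟨n - 1, by omega⟩
    rw [Nat.add_sub_cancel]
    have h1 : 1 ≤ p ^ m := Nat.one_le_pow _ _ hp.pos
    have e : (p ^ m * (p - 1)) ^ 2 = p ^ m * (p ^ m * (p - 1) ^ 2) := by ring
    rw [e, pow_succ]
    rcases hp.eq_two_or_odd with h2 | h2
    · subst h2
      constructor
      · have : 2 ^ m * 2 ≤ 2 ^ m * (2 * 2 ^ m) := Nat.mul_le_mul_left _ (by omega)
        calc 2 ^ m * 2 ≤ 2 ^ m * (2 * 2 ^ m) := this
          _ = 2 * (2 ^ m * (2 ^ m * (2 - 1) ^ 2)) := by norm_num; ring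
      · intro h
        exact absurd (Dvd.intro_left _ rfl) h
    · have hp3 : 3 ≤ p := by
        have := hp.two_le
        omega
      have h3 : p ≤ (p - 1) ^ 2 := by
        obtain ⟨r, rfl⟩ : ∃ r, p = r + 3 := ⟨p - 3, by omega⟩
        have : r + 3 - 1 = r + 2 := by omega
        rw [this]
        nlinarith
      have h4 : p ≤ p ^ m * (p - 1) ^ 2 := h3.trans (Nat.le_mul_of_pos_left _ h1)
      have h5 : p ^ m * p ≤ p ^ m * (p ^ m * (p - 1) ^ 2) := Nat.mul_le_mul_left _ h4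
      exact ⟨by omega, fun _ => h5⟩
  | zero => simp
  | one => simp
  | coprime a b ha hb hab iha ihb =>
    rw [Nat.totient_mul hab, mul_pow]
    have key : ¬ 2 ∣ a ∨ ¬ 2 ∣ b := by
      by_contra hcon
      push Not at hcon
      have := Nat.dvd_gcd hcon.1 hcon.2
      rw [hab] at this
      omega
    constructor
    · rcases key with h | h
      · calc a * b ≤ a.totient ^ 2 * (2 * b.totient ^ 2) := Nat.mul_le_mul (iha.2 h) ihb.1
          _ = _ := by ring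
      · calc a * b ≤ (2 * a.totient ^ 2) * b.totient ^ 2 := Nat.mul_le_mul iha.1 (ihb.2 h)
          _ = _ := by ring
    · intro h
      refine Nat.mul_le_mul (iha.2 fun h' => h (h'.mul_right _)) (ihb.2 fun h' => h (h'.mul_left _))

section alg

variable {ι : Type}

/-- the sum of the squares of the deviations from the mean -/
noncomputable def V (I : Finset ι) (f : ι → ℝ) : ℝ :=
  ∑ u ∈ I, f u ^ 2 - (∑ u ∈ I, f u) ^ 2 / I.card

theorem V_le (I : Finset ι) (f : ι → ℝ) (κ : ℝ) (hI : 0 < I.card) :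
    V I f ≤ ∑ u ∈ I, (f u - κ) ^ 2 := by
  have hm : (0 : ℝ) < I.card := by exact_mod_cast hI
  have e : ∑ u ∈ I, (f u - κ) ^ 2 =
      ∑ u ∈ I, f u ^ 2 - 2 * κ * ∑ u ∈ I, f u + I.card * κ ^ 2 := by
    have : ∀ u, (f u - κ) ^ 2 = f u ^ 2 - 2 * κ * f u + κ ^ 2 := fun u => by ring
    simp only [this]
    rw [sum_add_distrib, sum_sub_distrib, ← mul_sum, sum_const, nsmul_eq_mul]
  rw [e]
  unfold V
  have h1 : 0 ≤ (∑ u ∈ I, f u - I.card * κ) ^ 2 / I.card := by positivity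
  have h2 : (∑ u ∈ I, f u - I.card * κ) ^ 2 / I.card =
      (∑ u ∈ I, f u) ^ 2 / I.card - 2 * κ * ∑ u ∈ I, f u + I.card * κ ^ 2 := by
    field_simp
    ring
  linarith

theorem V_nonneg (I : Finset ι) (f : ι → ℝ) (hI : 0 < I.card) : 0 ≤ V I f := by
  have hm : (0 : ℝ) < I.card := by exact_mod_cast hI
  unfold V
  rw [sub_nonneg, div_le_iff₀ hm, mul_comm]
  exact sq_sum_le_card_mul_sum_sq

theorem V_sub (I : Finset ι) (a t : ι → ℝ) (b : ℝ) :
    V I (fun u => a u - b * t u) = V I a -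
      2 * b * (∑ u ∈ I, a u * t u - (∑ u ∈ I, a u) * (∑ u ∈ I, t u) / I.card) + b ^ 2 * V I t := by
  unfold V
  have e1 : ∑ u ∈ I, (a u - b * t u) = ∑ u ∈ I, a u - b * ∑ u ∈ I, t u := by
    rw [sum_sub_distrib, ← mul_sum]
  have e2 : ∑ u ∈ I, (a u - b * t u) ^ 2 =
      ∑ u ∈ I, a u ^ 2 - 2 * b * ∑ u ∈ I, a u * t u + b ^ 2 * ∑ u ∈ I, t u ^ 2 := by
    have : ∀ u, (a u - b * t u) ^ 2 = a u ^ 2 - 2 * b * (a u * t u) + b ^ 2 * t u ^ 2 :=
      fun u => by ring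
    simp only [this]
    rw [sum_add_distrib, sum_sub_distrib, ← mul_sum, ← mul_sum]
  rw [e1, e2]
  ring

theorem main_alg (I : Finset ι) (hI : 0 < I.card) (N ω x : ι → ℝ) (l b κ : ℝ) (hl : l ≤ 1)
    (hb : 0 ≤ b) (hω : ∀ u ∈ I, ω u = 1 ∨ ω u = -1)
    (hβ : ∑ u ∈ I, ω u * (N u * (N u - (∑ v ∈ I, N v) / I.card)) ≤ 0) :
    1 / 2 * (b ^ 2 * (∑ u ∈ I, N u) ^ 2 / I.card - (b * |∑ u ∈ I, ω u * N u|) ^ 2 / I.card) -
      ∑ u ∈ I, (x u - ((1 - l) * N u - b * (ω u * N u))) ^ 2 ≤ ∑ u ∈ I, (x u - κ) ^ 2 := by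
  have hm : (0 : ℝ) < I.card := by exact_mod_cast hI
  set s : ι → ℝ := fun u => (1 - l) * N u - b * (ω u * N u) with hs
  have h1 : V I s ≤ ∑ u ∈ I, (s u - κ) ^ 2 := V_le I s κ hI
  have h2 := V_sub I (fun u => (1 - l) * N u) (fun u => ω u * N u) b
  have h3 := V_nonneg I (fun u => (1 - l) * N u) hI
  have h4 : ∑ u ∈ I, (1 - l) * N u * (ω u * N u) -
      (∑ u ∈ I, (1 - l) * N u) * (∑ u ∈ I, ω u * N u) / I.card =
      (1 - l) * ∑ u ∈ I, ω u * (N u * (N u - (∑ v ∈ I, N v) / I.card)) := by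
    have e1 : ∀ u, ω u * (N u * (N u - (∑ v ∈ I, N v) / I.card)) =
        N u * (ω u * N u) - (∑ v ∈ I, N v) / I.card * (ω u * N u) := fun u => by ring
    have e2 : ∀ u, (1 - l) * N u * (ω u * N u) = (1 - l) * (N u * (ω u * N u)) := fun u => by ring
    simp only [e1, e2]
    rw [sum_sub_distrib, ← mul_sum, ← mul_sum, ← mul_sum]
    ring
  have h5 : V I (fun u => ω u * N u) =
      ∑ u ∈ I, N u ^ 2 - (∑ u ∈ I, ω u * N u) ^ 2 / I.card := by
    unfold V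
    congr 1
    refine sum_congr rfl fun u hu => ?_
    show (ω u * N u) ^ 2 = N u ^ 2
    rcases hω u hu with h | h <;> rw [h] <;> ring
  have h6 : (∑ u ∈ I, N u) ^ 2 / I.card ≤ ∑ u ∈ I, N u ^ 2 := by
    rw [div_le_iff₀ hm, mul_comm]
    exact sq_sum_le_card_mul_sum_sq
  have h7 : b ^ 2 * (∑ u ∈ I, N u) ^ 2 / I.card - (b * |∑ u ∈ I, ω u * N u|) ^ 2 / I.card ≤
      V I s := by
    rw [h4, h5] at h2
    rw [h2, mul_pow, sq_abs]
    have h8 : 0 ≤ -(2 * b * ((1 - l) * ∑ u ∈ I, ω u * (N u * (N u - (∑ v ∈ I, N v) / I.card)))) := by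
      have : (1 - l) * ∑ u ∈ I, ω u * (N u * (N u - (∑ v ∈ I, N v) / I.card)) ≤ 0 :=
        mul_nonpos_of_nonneg_of_nonpos (by linarith) hβ
      nlinarith
    have h9 := mul_le_mul_of_nonneg_left h6 (sq_nonneg b)
    have h10 : b ^ 2 * (∑ u ∈ I, N u) ^ 2 / I.card = b ^ 2 * ((∑ u ∈ I, N u) ^ 2 / I.card) := by ring
    have h11 : b ^ 2 * (∑ u ∈ I, ω u * N u) ^ 2 / I.card =
      b ^ 2 * ((∑ u ∈ I, ω u * N u) ^ 2 / I.card) := by ring
    rw [h10, h11]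
    linarith
  have h12 : ∑ u ∈ I, (s u - κ) ^ 2 ≤
      2 * ∑ u ∈ I, (x u - κ) ^ 2 + 2 * ∑ u ∈ I, (x u - s u) ^ 2 := by
    rw [mul_sum, mul_sum, ← sum_add_distrib]
    refine sum_le_sum fun u _ => ?_
    nlinarith [sq_nonneg ((x u - κ) + (x u - s u))]
  have h13 : ∑ u ∈ I, (x u - ((1 - l) * N u - b * (ω u * N u))) ^ 2 =
      ∑ u ∈ I, (x u - s u) ^ 2 := rfl
  rw [h13]
  linarith

end alg

/-! the classes -/

/-- the reduced classes -/
def Ic (q : ℕ) : Finset ℕ := (range q).filter (Nat.Coprime q)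

/-- the elements of the block in a class -/
def Dc (k q u : ℕ) : Finset ℕ := (blk k).filter (fun n => n ≡ u [MOD q])

theorem card_Ic (q : ℕ) : (Ic q).card = q.totient := rfl

theorem mem_Dc {k q u n : ℕ} (hu : u ∈ Ic q) : n ∈ Dc k q u ↔ n ∈ blk k ∧ n % q = u := by
  unfold Dc
  unfold Ic at hu
  rw [mem_filter, mem_range] at hu
  rw [mem_filter]
  unfold Nat.ModEq
  rw [Nat.mod_eq_of_lt hu.1]

theorem mem_blk' {k n : ℕ} : n ∈ blk k ↔ (2 ^ k < n ∧ n ≤ 2 ^ (k + 1)) ∧ n.Prime := by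
  unfold blk
  rw [mem_filter, mem_Ioc]

theorem sum_N {k q : ℕ} (hq : 0 < q) (hqk : q ≤ 2 ^ k) :
    ∑ u ∈ Ic q, ((Dc k q u).card : ℝ) = ((blk k).card : ℝ) := by
  have h1 : (blk k).card = ∑ u ∈ Ic q, ((blk k).filter (fun n => n % q = u)).card := by
    refine card_eq_sum_card_fiberwise fun n hn => ?_
    have hn' := mem_blk'.1 (mem_coe.1 hn)
    unfold Ic
    rw [mem_coe, mem_filter, mem_range]
    refine ⟨Nat.mod_lt _ hq, ?_⟩
    have h2 : Nat.Coprime n q := (Nat.Prime.coprime_iff_not_dvd hn'.2).2 fun h => by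
      have := Nat.le_of_dvd hq h
      omega
    have h3 : Nat.gcd q (n % q) = Nat.gcd q n := by
      rw [Nat.gcd_comm q (n % q), ← Nat.gcd_rec]
    show Nat.gcd q (n % q) = 1
    rw [h3, Nat.gcd_comm]
    exact h2
  rw [h1]
  push_cast
  refine sum_congr rfl fun u hu => ?_
  have : Dc k q u = (blk k).filter (fun n => n % q = u) := by
    ext n
    rw [mem_Dc hu, mem_filter]
  rw [this]

theorem disj {k q u v : ℕ} (hu : u ∈ Ic q) (hv : v ∈ Ic q) (huv : u ≠ v) :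
    Disjoint (Dc k q u) (Dc k q v) := by
  rw [Finset.disjoint_left]
  intro n hn hn'
  rw [mem_Dc hu] at hn
  rw [mem_Dc hv] at hn'
  exact huv (hn.2.symm.trans hn'.2)

theorem bi_eq {k q u n : ℕ} (ω : ℕ → ℝ) (hu : u ∈ Ic q) (hn : n ∈ Dc k q u) :
    bi ω (Ic q) (Dc k q) n = ω u := by
  unfold bi
  rw [sum_eq_single_of_mem u hu, if_pos hn]
  intro v hv hvu
  rw [if_neg]
  exact fun h => (Finset.disjoint_left.1 (disj hu hv hvu.symm)) hn h

open Classical in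
theorem x_eq (P : Set ℕ) (k q u : ℕ) :
    (((Dc k q u).filter (· ∈ P)).card : ℝ) = piP P (2 ^ (k + 1)) q u - piP P (2 ^ k) q u := by
  have h1 : elts P (2 ^ (k + 1)) q u = elts P (2 ^ k) q u ∪ (Dc k q u).filter (· ∈ P) := by
    ext n
    unfold elts Dc
    rw [mem_union, mem_filter, mem_filter, mem_filter, mem_filter, mem_blk']
    unfold primesUpTo
    rw [mem_filter, mem_filter, mem_range, mem_range]
    have h2 : 2 ^ k ≤ 2 ^ (k + 1) := Nat.pow_le_pow_right (by norm_num) (by omega)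
    constructor
    · rintro ⟨⟨a1, a2⟩, a3, a4⟩
      by_cases h : n ≤ 2 ^ k
      · exact Or.inl ⟨⟨by omega, a2⟩, a3, a4⟩
      · exact Or.inr ⟨⟨⟨⟨by omega, by omega⟩, a2⟩, a4⟩, a3⟩
    · rintro (⟨⟨a1, a2⟩, a3, a4⟩ | ⟨⟨⟨⟨a1, a2⟩, a3⟩, a4⟩, a5⟩)
      · exact ⟨⟨by omega, a2⟩, a3, a4⟩
      · exact ⟨⟨by omega, a3⟩, a5, a4⟩
  have h3 : Disjoint (elts P (2 ^ k) q u) ((Dc k q u).filter (· ∈ P)) := by
    rw [Finset.disjoint_left]
    intro n hn hn'
    unfold elts primesUpTo at hn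
    unfold Dc at hn'
    rw [mem_filter, mem_filter, mem_range] at hn
    rw [mem_filter, mem_filter, mem_blk'] at hn'
    omega
  unfold piP
  rw [h1, card_union_of_disjoint h3]
  push_cast
  ring

/-! the numbers -/

theorem e2_sq (k : ℕ) : e2 ((k : ℝ) / 2) ^ 2 = 2 ^ k := by
  unfold e2
  rw [← Real.rpow_natCast, ← Real.rpow_mul (by norm_num)]
  push_cast
  rw [div_mul_cancel₀ _ (by norm_num : (2 : ℝ) ≠ 0), Real.rpow_natCast]

theorem e2_pos (x : ℝ) : 0 < e2 x := Real.rpow_pos_of_pos (by norm_num) _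

theorem rho_sq (ε : ℝ) (k : ℕ) : (e2 (-(ε / 2)) ^ k) ^ 2 = e2 (-(ε * k)) := by
  unfold e2
  rw [← pow_mul, ← Real.rpow_natCast, ← Real.rpow_mul (by norm_num)]
  congr 1
  push_cast
  ring

theorem rho1 (ε : ℝ) (k : ℕ) : (e2 (-(ε / 2)) ^ k) ^ 2 * e2 (ε * k) = 1 := by
  rw [rho_sq]
  unfold e2
  rw [← Real.rpow_add (by norm_num), neg_add_cancel, Real.rpow_zero]

theorem rho2 (ε : ℝ) (k : ℕ) : e2 ((1 - ε) * k) = 2 ^ k * (e2 (-(ε / 2)) ^ k) ^ 2 := by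
  rw [rho_sq]
  unfold e2
  rw [← Real.rpow_natCast (2 : ℝ) k, ← Real.rpow_add (by norm_num)]
  congr 1
  ring

theorem ev_small {ε : ℝ} (hε : 0 < ε) {δ : ℝ} (hδ : 0 < δ) :
    ∃ k₀ : ℕ, ∀ k, k₀ ≤ k → (k : ℝ) ^ 2 * e2 (-(ε / 2)) ^ k ≤ δ := by
  have h1 : e2 (-(ε / 2)) < 1 := by
    unfold e2
    exact Real.rpow_lt_one_of_one_lt_of_neg (by norm_num) (by linarith)
  have ht := tendsto_pow_const_mul_const_pow_of_lt_one 2 (e2_pos (-(ε / 2))).le h1
  obtain ⟨k₀, h⟩ := Filter.eventually_atTop.1 (ht.eventually (ge_mem_nhds hδ))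
  exact ⟨k₀, h⟩

/-- the numerical facts for a block -/
structure Num (ε C : ℝ) (k q : ℕ) : Prop where
  k1 : 1 ≤ k
  q1 : 1 ≤ q
  C1 : 1 ≤ C
  lo : e2 (ε * k) ≤ q
  hi : (q : ℝ) ≤ e2 ((1 - ε) * k)
  bt : ∀ u, ((Dc k q u).card : ℝ) ≤ C * 2 ^ k / ((q.totient : ℝ) * k)
  bb : ((blk k).card : ℝ) ≤ C * 2 ^ k / k
  sm : (k : ℝ) ^ 2 * e2 (-(ε / 2)) ^ k ≤ 1 / 4

/-- the amplitude -/
noncomputable def bc (C : ℝ) (k q : ℕ) : ℝ := k * √(q.totient : ℝ) / (C * e2 ((k : ℝ) / 2))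

theorem tot_pos {q : ℕ} (hq : 1 ≤ q) : (1 : ℝ) ≤ (q.totient : ℝ) := by
  exact_mod_cast Nat.totient_pos.2 hq

theorem q_le {ε C : ℝ} (hε : 0 < ε) {k q : ℕ} (h : Num ε C k q) : q ≤ 2 ^ k := by
  have h1 : e2 (-(ε * k)) ≤ 1 := by
    unfold e2
    refine Real.rpow_le_one_of_one_le_of_nonpos (by norm_num) ?_
    have : 0 ≤ ε * k := by positivity
    linarith
  have h2 := h.hi
  rw [rho2, rho_sq] at h2
  have h3 : (q : ℝ) ≤ 2 ^ k := h2.trans (mul_le_of_le_one_right (by positivity) h1)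
  exact_mod_cast h3

theorem sqrt_le {ε C : ℝ} {k q : ℕ} (h : Num ε C k q) :
    √(q.totient : ℝ) ≤ e2 ((k : ℝ) / 2) * e2 (-(ε / 2)) ^ k := by
  have h1 : (q.totient : ℝ) ≤ q := by exact_mod_cast Nat.totient_le q
  have h2 := h1.trans h.hi
  rw [rho2, ← e2_sq, ← mul_pow] at h2
  exact Real.sqrt_le_iff.2 ⟨mul_nonneg (e2_pos _).le (pow_nonneg (e2_pos _).le _), h2⟩

theorem tot_rho {ε C : ℝ} {k q : ℕ} (h : Num ε C k q) :
    1 ≤ 2 * ((q.totient : ℝ) * e2 (-(ε / 2)) ^ k) := by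
  have h1 : (q : ℝ) ≤ 2 * (q.totient : ℝ) ^ 2 := by exact_mod_cast (tot q).1
  have h2 := h.lo.trans h1
  have h3 := rho1 ε k
  have hp : 0 < e2 (-(ε / 2)) ^ k := pow_pos (e2_pos _) _
  have hm := tot_pos h.q1
  have h4 : 1 ≤ 2 * ((q.totient : ℝ) * e2 (-(ε / 2)) ^ k) ^ 2 := by
    calc (1 : ℝ) = (e2 (-(ε / 2)) ^ k) ^ 2 * e2 (ε * k) := h3.symm
      _ ≤ (e2 (-(ε / 2)) ^ k) ^ 2 * (2 * (q.totient : ℝ) ^ 2) :=
        mul_le_mul_of_nonneg_left h2 (by positivity)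
      _ = _ := by ring
  have h5 : 0 < (q.totient : ℝ) * e2 (-(ε / 2)) ^ k := by positivity
  nlinarith

theorem isD {ε C : ℝ} {k q : ℕ} (h : Num ε C k q) : IsD k (bc C k q) (Ic q) (Dc k q) := by
  have hA : 0 < e2 ((k : ℝ) / 2) := e2_pos _
  have hA2 := e2_sq k
  have hm := tot_pos h.q1
  have hm0 : (0 : ℝ) < (q.totient : ℝ) := by linarith
  have hs1 : (1 : ℝ) ≤ √(q.totient : ℝ) := Real.one_le_sqrt.2 hm
  have hs2 : √(q.totient : ℝ) ^ 2 = (q.totient : ℝ) := Real.sq_sqrt hm0.le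
  have hk : (1 : ℝ) ≤ k := by exact_mod_cast h.k1
  have hC := h.C1
  have hC0 : 0 < C := by linarith
  set A := e2 ((k : ℝ) / 2) with hAd
  set s := √(q.totient : ℝ) with hs
  have hs0 : 0 < s := by linarith
  refine ⟨h.k1, ?_, ?_, fun u _ => filter_subset _ _, fun u hu v hv huv => disj hu hv huv, ?_, ?_⟩
  · unfold bc
    positivity
  · have h1 := sqrt_le h
    have h2 := h.sm
    have hp : 0 < e2 (-(ε / 2)) ^ k := pow_pos (e2_pos _) _
    unfold bc la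
    rw [div_le_div_iff₀ (by positivity) (by positivity), one_mul]
    have h7 : 2 * ((k : ℝ) + 1) ≤ 4 * k := by linarith
    have h3 : (k : ℝ) * s * (2 * (k + 1)) ≤ k * (A * e2 (-(ε / 2)) ^ k) * (4 * k) :=
      mul_le_mul (mul_le_mul_of_nonneg_left h1 (by linarith)) h7 (by positivity) (by positivity)
    have h4 : (k : ℝ) * (A * e2 (-(ε / 2)) ^ k) * (4 * k) =
        4 * A * ((k : ℝ) ^ 2 * e2 (-(ε / 2)) ^ k) := by ring
    have h5 : 4 * A * ((k : ℝ) ^ 2 * e2 (-(ε / 2)) ^ k) ≤ 4 * A * (1 / 4) := by gcongr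
    have h6 : A ≤ C * A := by nlinarith
    linarith
  · intro u _
    have h1 := h.bt u
    calc bc C k q * ((Dc k q u).card : ℝ) ≤
        bc C k q * (C * 2 ^ k / ((q.totient : ℝ) * k)) :=
          mul_le_mul_of_nonneg_left h1 (by unfold bc; positivity)
      _ = A / s := by
        unfold bc
        rw [← hAd, ← hs, ← hA2, ← hs2]
        field_simp
      _ ≤ A := div_le_self hA.le hs1
  · have h2 : ∑ u ∈ Ic q, ((Dc k q u).card : ℝ) ^ 2 ≤
        (C * 2 ^ k / ((q.totient : ℝ) * k)) * ∑ u ∈ Ic q, ((Dc k q u).card : ℝ) := by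
      rw [mul_sum]
      refine sum_le_sum fun u _ => ?_
      rw [sq]
      exact mul_le_mul_of_nonneg_right (h.bt u) (Nat.cast_nonneg _)
    have h3 : ∑ u ∈ Ic q, ((Dc k q u).card : ℝ) ≤ C * 2 ^ k / k := by
      refine le_trans ?_ h.bb
      have h4 : ∑ u ∈ Ic q, (Dc k q u).card ≤ (blk k).card := by
        rw [← card_biUnion fun u hu v hv huv => disj hu hv huv]
        refine card_le_card fun n hn => ?_
        obtain ⟨u, _, hn'⟩ := mem_biUnion.1 hn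
        exact (mem_filter.1 hn').1
      exact_mod_cast h4
    calc bc C k q ^ 2 * ∑ u ∈ Ic q, ((Dc k q u).card : ℝ) ^ 2 ≤
        bc C k q ^ 2 * ((C * 2 ^ k / ((q.totient : ℝ) * k)) * (C * 2 ^ k / k)) := by
          refine mul_le_mul_of_nonneg_left (h2.trans ?_) (sq_nonneg _)
          exact mul_le_mul_of_nonneg_left h3 (by positivity)
      _ = 2 ^ k := by
        unfold bc
        rw [← hAd, ← hs, ← hA2, ← hs2]
        field_simp

/-- the lower bound for a block -/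
theorem low {ε C c C' : ℝ} {k q : ℕ} (hε : 0 < ε) (h : Num ε C k q) (hc : 0 < c)
    (hch : c * 2 ^ k / (k + 1) ≤ ((blk k).card : ℝ))
    (ω x : ℕ → ℝ) (κ : ℝ) (hω : ∀ u, ω u = 1 ∨ ω u = -1)
    (h1 : bc C k q * |∑ u ∈ Ic q, ω u * (Dc k q u).card| ≤ C' * e2 ((k : ℝ) / 2) * k)
    (h2 : ∑ u ∈ Ic q, ω u * (((Dc k q u).card : ℝ) * (((Dc k q u).card : ℝ) -
      (∑ v ∈ Ic q, ((Dc k q v).card : ℝ)) / (Ic q).card)) ≤ 0)
    (h3 : ∑ u ∈ Ic q, (x u - ((1 - la k) * (Dc k q u).card -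
      bc C k q * (ω u * (Dc k q u).card))) ^ 2 ≤ 7 * (∑ u ∈ Ic q, ((Dc k q u).card : ℝ) + 1))
    (k1 : 2 * C' ^ 2 * ((k : ℝ) ^ 2 * e2 (-(ε / 2)) ^ k) ≤ c ^ 2 / (4 * C ^ 2) / 4)
    (k2 : 7 * (C + 1) / k ≤ c ^ 2 / (4 * C ^ 2) / 8) :
    c ^ 2 / (4 * C ^ 2) / 4 * 2 ^ k ≤ ∑ u ∈ Ic q, (x u - κ) ^ 2 := by
  have hA : 0 < e2 ((k : ℝ) / 2) := e2_pos _
  have hA2 := e2_sq k
  have hm := tot_pos h.q1
  have hm0 : (0 : ℝ) < (q.totient : ℝ) := by linarith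
  have hs2 : √(q.totient : ℝ) ^ 2 = (q.totient : ℝ) := Real.sq_sqrt hm0.le
  have hk : (1 : ℝ) ≤ k := by exact_mod_cast h.k1
  have hC := h.C1
  have hC0 : 0 < C := by linarith
  have hN := sum_N (k := k) h.q1 (q_le hε h)
  have hI : 0 < (Ic q).card := by
    rw [card_Ic]
    exact Nat.totient_pos.2 h.q1
  have hla : la k ≤ 1 := by
    unfold la
    rw [div_le_one (by positivity)]
    linarith
  have hbc : 0 ≤ bc C k q := (isD h).nonneg
  have key := main_alg (Ic q) hI (fun u => ((Dc k q u).card : ℝ)) ω x (la k) (bc C k q) κ hla hbc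
    (fun u _ => hω u) h2
  refine le_trans ?_ key
  have e1 : (((Ic q).card : ℕ) : ℝ) = (q.totient : ℝ) := by rw [card_Ic]
  rw [e1, hN]
  rw [hN] at h3
  set A := e2 ((k : ℝ) / 2) with hAd
  set N : ℝ := ((blk k).card : ℝ) with hNd
  set ρ := e2 (-(ε / 2)) ^ k with hρ
  have hρ0 : 0 < ρ := pow_pos (e2_pos _) _
  set E := c ^ 2 / (4 * C ^ 2) with hE
  have hE0 : 0 < E := by positivity
  -- the main term
  have a1 : c * A ^ 2 / (2 * k) ≤ N := by
    refine le_trans ?_ hch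
    rw [hA2]
    gcongr
    linarith
  have a2 : E * A ^ 2 ≤ bc C k q ^ 2 * N ^ 2 / (q.totient : ℝ) := by
    have a3 : bc C k q ^ 2 * N ^ 2 / (q.totient : ℝ) = (k : ℝ) ^ 2 / (C ^ 2 * A ^ 2) * N ^ 2 := by
      unfold bc
      rw [← hAd, div_pow, mul_pow, hs2]
      field_simp
    have a4 : (c * A ^ 2 / (2 * k)) ^ 2 ≤ N ^ 2 := pow_le_pow_left₀ (by positivity) a1 2
    rw [a3]
    calc E * A ^ 2 = (k : ℝ) ^ 2 / (C ^ 2 * A ^ 2) * (c * A ^ 2 / (2 * k)) ^ 2 := by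
          rw [hE]
          field_simp
          ring
      _ ≤ _ := mul_le_mul_of_nonneg_left a4 (by positivity)
  -- the mean
  have b1 : (bc C k q * |∑ u ∈ Ic q, ω u * (Dc k q u).card|) ^ 2 / (q.totient : ℝ) ≤
      E / 4 * A ^ 2 := by
    have b2 : (bc C k q * |∑ u ∈ Ic q, ω u * (Dc k q u).card|) ^ 2 ≤ (C' * A * k) ^ 2 :=
      pow_le_pow_left₀ (mul_nonneg hbc (abs_nonneg _)) h1 2
    have b3 : 1 ≤ 2 * ((q.totient : ℝ) * ρ) := tot_rho h
    rw [div_le_iff₀ hm0]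
    calc (bc C k q * |∑ u ∈ Ic q, ω u * (Dc k q u).card|) ^ 2 ≤ (C' * A * k) ^ 2 := b2
      _ = (C' * A * k) ^ 2 * 1 := (mul_one _).symm
      _ ≤ (C' * A * k) ^ 2 * (2 * ((q.totient : ℝ) * ρ)) :=
        mul_le_mul_of_nonneg_left b3 (sq_nonneg _)
      _ = (2 * C' ^ 2 * ((k : ℝ) ^ 2 * ρ)) * (A ^ 2 * (q.totient : ℝ)) := by ring
      _ ≤ (E / 4) * (A ^ 2 * (q.totient : ℝ)) := mul_le_mul_of_nonneg_right k1 (by positivity)
      _ = _ := by ring
  -- the error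
  have d1 : 7 * (N + 1) ≤ E / 8 * A ^ 2 := by
    have d2 : N ≤ C * A ^ 2 / k := by
      rw [hA2]
      exact h.bb
    have d3 : (1 : ℝ) ≤ A ^ 2 / k := by
      rw [le_div_iff₀ (by linarith), one_mul, hA2]
      exact_mod_cast (Nat.lt_two_pow_self (n := k)).le
    calc 7 * (N + 1) ≤ 7 * (C * A ^ 2 / k + A ^ 2 / k) := by linarith
      _ = 7 * (C + 1) / k * A ^ 2 := by ring
      _ ≤ E / 8 * A ^ 2 := mul_le_mul_of_nonneg_right k2 (sq_nonneg _)
  have h3' := h3.trans d1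
  have f1 : (∑ u ∈ Ic q, (x u - ((1 - la k) * (fun u => ((Dc k q u).card : ℝ)) u -
      bc C k q * (ω u * (fun u => ((Dc k q u).card : ℝ)) u))) ^ 2) =
      ∑ u ∈ Ic q, (x u - ((1 - la k) * (Dc k q u).card -
      bc C k q * (ω u * (Dc k q u).card))) ^ 2 := rfl
  rw [f1, ← hA2]
  linarith

end T4

open T4 in
theorem t4 (hCHE : LT.S_CHE) (hBTP : S_BTP) (hPG : S_PG) : S_T4 := by
  intro ε Q hε hε1 hQ c hc
  obtain ⟨cc, hcc, hch⟩ := hCHE
  obtain ⟨C₁, kB, hC₁, hB⟩ := hBTP ε hε hε1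
  obtain ⟨kQ, hkQ⟩ := hQ
  obtain ⟨kS, hkS⟩ := ev_small hε (δ := 1 / 4) (by norm_num)
  set C := max C₁ 1 with hC
  have hC1 : 1 ≤ C := le_max_right _ _
  have hC0 : 0 < C := by linarith
  set K0 := max (max kB kQ) (max kS 1) with hK0
  have hnum : ∀ k, K0 ≤ k → Num ε C k (Q k) := by
    intro k hk
    have g1 : kB ≤ k := (le_max_left _ _).trans ((le_max_left _ _).trans hk)
    have g2 : kQ ≤ k := (le_max_right _ _).trans ((le_max_left _ _).trans hk)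
    have g3 : kS ≤ k := (le_max_left _ _).trans ((le_max_right _ _).trans hk)
    have g4 : 1 ≤ k := (le_max_right _ _).trans ((le_max_right _ _).trans hk)
    obtain ⟨q1, q2⟩ := hkQ k g2
    have g5 : 1 ≤ Q k := by
      have : (0 : ℝ) < (Q k : ℝ) := lt_of_lt_of_le (e2_pos _) q1
      exact_mod_cast this
    have hk0 : (0 : ℝ) < k := by exact_mod_cast g4
    have ht := tot_pos g5
    refine ⟨g4, g5, hC1, q1, q2, fun u => ?_, ?_, hkS k g3⟩
    · refine (hB k g1 (Q k) u g5 q2).trans ?_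
      have : C₁ ≤ C := le_max_left _ _
      gcongr
    · have h1 := hB k g1 1 0 le_rfl (by
        push_cast
        unfold e2
        refine Real.one_le_rpow (by norm_num) ?_
        have : 0 ≤ 1 - ε := by linarith
        positivity)
      have h2 : (blk k).filter (fun n => n ≡ 0 [MOD 1]) = blk k :=
        filter_true_of_mem fun n _ => Nat.modEq_one
      rw [h2, Nat.totient_one, Nat.cast_one, one_mul] at h1
      refine h1.trans ?_
      have : C₁ ≤ C := le_max_left _ _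
      gcongr
  obtain ⟨P, w, C', hP, hw, hcl, hmain⟩ := hPG (fun k => bc C k (Q k)) (fun k => Ic (Q k))
    (fun k => Dc k (Q k)) (fun k u => ((Dc k (Q k) u).card : ℝ) * (((Dc k (Q k) u).card : ℝ) -
      (∑ v ∈ Ic (Q k), ((Dc k (Q k) v).card : ℝ)) / (Ic (Q k)).card)) (fun k => Ic (Q k))
    (fun k => Dc k (Q k)) K0 (fun k hk => ⟨isD (hnum k hk), fun u _ => filter_subset _ _⟩) c hc
  set E := cc ^ 2 / (4 * C ^ 2) with hE
  have hE0 : 0 < E := by positivity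
  have hC'0 : 0 < 2 * C' ^ 2 + 1 := by positivity
  obtain ⟨k2, hk2⟩ := ev_small hε (δ := E / 4 / (2 * C' ^ 2 + 1)) (by positivity)
  obtain ⟨k3, hk3⟩ := exists_nat_ge (7 * (C + 1) * 8 / E)
  refine ⟨P, w, E / 16, max K0 (max k2 (max k3 1)), by positivity, hP, hw, hcl, fun k hk => ?_⟩
  have g1 : K0 ≤ k := (le_max_left _ _).trans hk
  have g2 : k2 ≤ k := (le_max_left _ _).trans ((le_max_right _ _).trans hk)
  have g3 : k3 ≤ k := (le_max_left _ _).trans ((le_max_right _ _).trans ((le_max_right _ _).trans hk))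
  have g4 : 1 ≤ k := (le_max_right _ _).trans ((le_max_right _ _).trans ((le_max_right _ _).trans hk))
  have hn := hnum k g1
  have hkr : (0 : ℝ) < k := by exact_mod_cast g4
  obtain ⟨ω, hω, m1, m2, m3⟩ := hmain k g1
  have m3' : ∑ u ∈ Ic (Q k), ((piP P (2 ^ (k + 1)) (Q k) u - piP P (2 ^ k) (Q k) u) -
      ((1 - la k) * (Dc k (Q k) u).card - bc C k (Q k) * (ω u * (Dc k (Q k) u).card))) ^ 2 ≤
      7 * (∑ u ∈ Ic (Q k), ((Dc k (Q k) u).card : ℝ) + 1) := by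
    refine le_trans (le_of_eq ?_) m3
    refine sum_congr rfl fun u hu => ?_
    have e1 : ∑ n ∈ Dc k (Q k) u, (1 - la k - bc C k (Q k) * bi ω (Ic (Q k)) (Dc k (Q k)) n) =
        (1 - la k) * (Dc k (Q k) u).card - bc C k (Q k) * (ω u * (Dc k (Q k) u).card) := by
      rw [sum_congr rfl fun n hn => by rw [bi_eq ω hu hn], sum_const, nsmul_eq_mul]
      ring
    rw [← x_eq P k (Q k) u, e1]
  have k1' : 2 * C' ^ 2 * ((k : ℝ) ^ 2 * e2 (-(ε / 2)) ^ k) ≤ E / 4 := by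
    have h1 := hk2 k g2
    rw [le_div_iff₀ hC'0] at h1
    have h2 : 0 ≤ (k : ℝ) ^ 2 * e2 (-(ε / 2)) ^ k :=
      mul_nonneg (sq_nonneg _) (pow_nonneg (e2_pos _).le _)
    nlinarith
  have k2' : 7 * (C + 1) / k ≤ E / 8 := by
    have h1 : (k3 : ℝ) ≤ k := by exact_mod_cast g3
    have h2 := hk3.trans h1
    rw [div_le_iff₀ hE0] at h2
    rw [div_le_div_iff₀ hkr (by norm_num)]
    linarith
  set κ : ℝ := (piP P (2 ^ (k + 1)) 1 0 - piP P (2 ^ k) 1 0) / ((Q k).totient : ℝ) with hκ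
  have fin := low hε hn hcc (hch k) ω
    (fun u => piP P (2 ^ (k + 1)) (Q k) u - piP P (2 ^ k) (Q k) u) κ hω m1 m2 m3' k1' k2'
  have h5 : ∑ u ∈ Ic (Q k), (piP P (2 ^ (k + 1)) (Q k) u - piP P (2 ^ k) (Q k) u - κ) ^ 2 ≤
      2 * varQ P (2 ^ (k + 1)) (Q k) + 2 * varQ P (2 ^ k) (Q k) := by
    unfold varQ
    rw [mul_sum, mul_sum, ← sum_add_distrib]
    refine sum_le_sum fun u _ => ?_
    have e1 : piP P (2 ^ (k + 1)) (Q k) u - piP P (2 ^ k) (Q k) u - κ =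
        dev P (2 ^ (k + 1)) (Q k) u - dev P (2 ^ k) (Q k) u := by
      rw [hκ]
      unfold dev
      ring
    rw [e1]
    nlinarith [sq_nonneg (dev P (2 ^ (k + 1)) (Q k) u + dev P (2 ^ k) (Q k) u)]
  have h6 := fin.trans h5
  by_cases h7 : E / 16 * 2 ^ k ≤ varQ P (2 ^ k) (Q k)
  · exact ⟨2 ^ k, Or.inl rfl, h7⟩
  · refine ⟨2 ^ (k + 1), Or.inr rfl, ?_⟩
    push Not at h7
    linarith

end Pool.Agent.H414.GV
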