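import Pool.Agent.H414.GV.Spec

/-!
# Variance in short intervals (T5), by helper694 for project GV of helper414
-/

set_option autoImplicit false

namespace Pool.Agent.H414.GV

open Finset
open Pool.Agent.H414.LT (primesUpTo blk kk)
open Pool.Agent.H414.DF (e2)
open Pool.Agent.H414.GE (Close piP dev)

namespace T5

theorem e2_nat (k : ℕ) : e2 (k : ℝ) = 2 ^ k := by
  unfold e2
  exact Real.rpow_natCast 2 k

theorem e2_pos (x : ℝ) : 0 < e2 x := Real.rpow_pos_of_pos (by norm_num) x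

theorem e2_add (x y : ℝ) : e2 (x + y) = e2 x * e2 y := Real.rpow_add (by norm_num) x y

theorem e2_mono {x y : ℝ} (h : x ≤ y) : e2 x ≤ e2 y :=
  Real.rpow_le_rpow_of_exponent_le (by norm_num) h

/-- exponential growth -/
theorem big (A δ : ℝ) (hδ : 0 < δ) :
    ∃ k₀ : ℕ, ∀ k : ℕ, k₀ ≤ k → A * ((k : ℝ) + 1) ^ 2 ≤ e2 (δ * k) := by
  have hr : (1 : ℝ) < (2 : ℝ) ^ δ := Real.one_lt_rpow (by norm_num) hδ
  have h1 := isLittleO_pow_const_const_pow_of_one_lt (R := ℝ) 2 hr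
  have hA : (0 : ℝ) < 1 / (4 * (|A| + 1)) := by positivity
  have h2 := (h1.def hA).and (Filter.eventually_ge_atTop 1)
  obtain ⟨k₀, hk₀⟩ := Filter.eventually_atTop.1 h2
  refine ⟨k₀, fun k hk => ?_⟩
  obtain ⟨h3, h4⟩ := hk₀ k hk
  have h5 : e2 (δ * k) = ((2 : ℝ) ^ δ) ^ k := by
    unfold e2
    rw [Real.rpow_mul (by norm_num), Real.rpow_natCast]
  have e1 : ‖((k : ℝ)) ^ 2‖ = (k : ℝ) ^ 2 := Real.norm_of_nonneg (by positivity)
  have e2' : ‖((2 : ℝ) ^ δ) ^ k‖ = ((2 : ℝ) ^ δ) ^ k := Real.norm_of_nonneg (by positivity)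
  rw [e1, e2', div_mul_eq_mul_div, one_mul, le_div_iff₀ (by positivity)] at h3
  rw [h5]
  have hk1 : (1 : ℝ) ≤ k := by exact_mod_cast h4
  have h6 : ((k : ℝ) + 1) ^ 2 ≤ 4 * (k : ℝ) ^ 2 := by nlinarith
  calc A * ((k : ℝ) + 1) ^ 2 ≤ (|A| + 1) * ((k : ℝ) + 1) ^ 2 :=
        mul_le_mul_of_nonneg_right (by linarith [le_abs_self A]) (by positivity)
    _ ≤ (|A| + 1) * (4 * (k : ℝ) ^ 2) :=
        mul_le_mul_of_nonneg_left h6 (by positivity)
    _ = (k : ℝ) ^ 2 * (4 * (|A| + 1)) := by ring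
    _ ≤ _ := h3

/-- left end of the cell -/
def s (k h L u : ℕ) : ℕ := 2 ^ k + L * h * u

/-- the number of the cells -/
def m (k h L : ℕ) : ℕ := 2 ^ k / (L * h)

/-- the primes in `(a, b]` -/
def pr (a b : ℕ) : Finset ℕ := (Ioc a b).filter Nat.Prime

theorem mem_pr {a b p : ℕ} : p ∈ pr a b ↔ (a < p ∧ p ≤ b) ∧ p.Prime := by
  unfold pr
  rw [mem_filter, mem_Ioc]

def cell (k h L u : ℕ) : Finset ℕ := pr (s k h L u) (s k h L u + L * h)

def SS (k h L u : ℕ) : Finset ℕ := Ioc (s k h L u) (s k h L u + (L - 1) * h)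

def II (k h L : ℕ) : Finset ℕ := (range (m k h L)).biUnion (SS k h L)

theorem s_le (k h L u : ℕ) (hu : u < m k h L) : s k h L u + L * h ≤ 2 ^ (k + 1) := by
  unfold s
  unfold m at hu
  have h1 : L * h * (u + 1) ≤ L * h * (2 ^ k / (L * h)) := Nat.mul_le_mul_left _ hu
  have h2 : L * h * (2 ^ k / (L * h)) ≤ 2 ^ k := Nat.mul_div_le _ _
  rw [pow_succ]
  have h3 : L * h * (u + 1) = L * h * u + L * h := by ring
  omega

theorem s_sep (k h L u v : ℕ) (huv : u < v) : s k h L u + L * h ≤ s k h L v := by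
  unfold s
  have h1 : L * h * (u + 1) ≤ L * h * v := Nat.mul_le_mul_left _ huv
  have h3 : L * h * (u + 1) = L * h * u + L * h := by ring
  omega

theorem L_sub (h L : ℕ) (hL : 2 ≤ L) : (L - 1) * h + h = L * h := by
  obtain ⟨l, rfl⟩ : ∃ l, L = l + 1 := ⟨L - 1, by omega⟩
  rw [Nat.add_sub_cancel]
  ring

theorem uniq (k h L u v n : ℕ) (h1 : s k h L u < n) (h2 : n ≤ s k h L u + L * h)
    (h3 : s k h L v < n) (h4 : n ≤ s k h L v + L * h) : u = v := by
  rcases lt_trichotomy u v with huv | huv | huv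
  · have := s_sep k h L u v huv
    omega
  · exact huv
  · have := s_sep k h L v u huv
    omega

theorem cell_sub (k h L u : ℕ) (hu : u < m k h L) : cell k h L u ⊆ blk k := by
  intro p hp
  rw [cell, mem_pr] at hp
  have := s_le k h L u hu
  unfold blk
  rw [mem_filter, mem_Ioc]
  refine ⟨⟨?_, by omega⟩, hp.2⟩
  have h1 : 2 ^ k ≤ s k h L u := by unfold s; omega
  omega

theorem pr_sub (k h L u n : ℕ) (hL : 2 ≤ L) (hn : n ∈ SS k h L u) :
    pr n (n + h) ⊆ cell k h L u := by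
  intro p hp
  rw [SS, mem_Ioc] at hn
  rw [mem_pr] at hp
  rw [cell, mem_pr]
  have := L_sub h L hL
  refine ⟨⟨by omega, by omega⟩, hp.2⟩

theorem SS_disj (k h L : ℕ) (hL : 2 ≤ L) : ∀ u ∈ (range (m k h L) : Finset ℕ),
    ∀ v ∈ (range (m k h L) : Finset ℕ), u ≠ v → Disjoint (SS k h L u) (SS k h L v) := by
  intro u _ v _ huv
  rw [Finset.disjoint_left]
  intro n hn hn'
  rw [SS, mem_Ioc] at hn hn'
  have := L_sub h L hL
  exact huv (uniq k h L u v n hn.1 (by omega) hn'.1 (by omega))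

theorem II_sub (k h L : ℕ) (hL : 2 ≤ L) : II k h L ⊆ Ioc (2 ^ k) (2 ^ (k + 1)) := by
  intro n hn
  rw [II, mem_biUnion] at hn
  obtain ⟨u, hu, hn⟩ := hn
  rw [mem_range] at hu
  rw [SS, mem_Ioc] at hn
  have := L_sub h L hL
  have h1 := s_le k h L u hu
  have h2 : 2 ^ k ≤ s k h L u := by unfold s; omega
  rw [mem_Ioc]
  omega

theorem bi_eq (k h L u n : ℕ) (ω : ℕ → ℝ) (hu : u < m k h L) (hn : n ∈ cell k h L u) :
    bi ω (range (m k h L)) (cell k h L) n = ω u := by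
  unfold bi
  rw [Finset.sum_eq_single u]
  · rw [if_pos hn]
  · intro v _ hvu
    rw [if_neg]
    intro hv
    rw [cell, mem_pr] at hn hv
    exact hvu (uniq k h L v u n hv.1.1 hv.1.2 hn.1.1 hn.1.2)
  · intro h
    exact absurd (mem_range.2 hu) h

/-- double counting -/
theorem double (k h L u : ℕ) :
    h * (pr (s k h L u + h) (s k h L u + (L - 1) * h)).card ≤
      ∑ n ∈ SS k h L u, (pr n (n + h)).card := by
  set mid := pr (s k h L u + h) (s k h L u + (L - 1) * h) with hmid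
  have h1 : ∑ n ∈ SS k h L u, ∑ p ∈ mid, (if n < p ∧ p ≤ n + h then 1 else 0) ≤
      ∑ n ∈ SS k h L u, (pr n (n + h)).card := by
    refine Finset.sum_le_sum (fun n _ => ?_)
    rw [← Finset.card_filter]
    refine Finset.card_le_card ?_
    intro p hp
    rw [mem_filter, hmid, mem_pr] at hp
    rw [mem_pr]
    exact ⟨hp.2, hp.1.2⟩
  refine le_trans ?_ h1
  rw [Finset.sum_comm, mul_comm, ← smul_eq_mul, ← Finset.sum_const]
  refine Finset.sum_le_sum (fun p hp => ?_)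
  rw [← Finset.card_filter]
  rw [hmid, mem_pr] at hp
  have h2 : (Ico (p - h) p).card = h := by
    rw [Nat.card_Ico]
    omega
  calc h = (Ico (p - h) p).card := h2.symm
    _ ≤ _ := by
      refine Finset.card_le_card ?_
      intro n hn
      rw [mem_Ico] at hn
      rw [mem_filter, SS, mem_Ioc]
      omega

/-- the primes of the block are in the cells, except for the last ones -/
theorem count (k h L : ℕ) (hL : 2 ≤ L) (hh : 1 ≤ h) :
    (blk k).card ≤ ∑ u ∈ range (m k h L), ((pr (s k h L u) (s k h L u + h)).card +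
      (pr (s k h L u + h) (s k h L u + (L - 1) * h)).card +
      (pr (s k h L u + (L - 1) * h) (s k h L u + (L - 1) * h + h)).card) + L * h := by
  have hLh : 0 < L * h := by positivity
  have hsub : blk k ⊆ ((range (m k h L)).biUnion fun u =>
      (pr (s k h L u) (s k h L u + h) ∪ pr (s k h L u + h) (s k h L u + (L - 1) * h)) ∪
      pr (s k h L u + (L - 1) * h) (s k h L u + (L - 1) * h + h)) ∪
        Ioc (2 ^ k + L * h * m k h L) (2 ^ (k + 1)) := by
    intro p hp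
    unfold blk at hp
    rw [mem_filter, mem_Ioc] at hp
    obtain ⟨⟨hp1, hp2⟩, hp3⟩ := hp
    rw [mem_union, mem_biUnion, mem_Ioc]
    by_cases hu : (p - 2 ^ k - 1) / (L * h) < m k h L
    · left
      refine ⟨(p - 2 ^ k - 1) / (L * h), mem_range.2 hu, ?_⟩
      set u := (p - 2 ^ k - 1) / (L * h) with hu'
      have h1 : L * h * u ≤ p - 2 ^ k - 1 := Nat.mul_div_le _ _
      have h2 : p - 2 ^ k - 1 < L * h * (u + 1) := Nat.lt_mul_div_succ _ hLh
      have h3 : L * h * (u + 1) = L * h * u + L * h := by ring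
      have h4 := L_sub h L hL
      rw [mem_union, mem_union, mem_pr, mem_pr, mem_pr]
      have h5 : s k h L u = 2 ^ k + L * h * u := rfl
      by_cases h6 : p ≤ s k h L u + h
      · left; left
        exact ⟨⟨by omega, h6⟩, hp3⟩
      · by_cases h7 : p ≤ s k h L u + (L - 1) * h
        · left; right
          exact ⟨⟨by omega, h7⟩, hp3⟩
        · right
          exact ⟨⟨by omega, by omega⟩, hp3⟩
    · right
      rw [not_lt] at hu
      have h1 : L * h * m k h L ≤ L * h * ((p - 2 ^ k - 1) / (L * h)) :=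
        Nat.mul_le_mul_left _ hu
      have h2 : L * h * ((p - 2 ^ k - 1) / (L * h)) ≤ p - 2 ^ k - 1 := Nat.mul_div_le _ _
      omega
  refine (Finset.card_le_card hsub).trans ((Finset.card_union_le _ _).trans ?_)
  refine Nat.add_le_add ?_ ?_
  · refine Finset.card_biUnion_le.trans (Finset.sum_le_sum (fun u _ => ?_))
    refine (Finset.card_union_le _ _).trans (Nat.add_le_add_right ?_ _)
    exact Finset.card_union_le _ _
  · rw [Nat.card_Ioc]
    have h1 : 2 ^ k < L * h * (m k h L + 1) := Nat.lt_mul_div_succ _ hLh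
    have h3 : L * h * (m k h L + 1) = L * h * m k h L + L * h := by ring
    rw [pow_succ]
    omega

theorem m_le (k h L : ℕ) :
    (m k h L : ℝ) * (L * h) ≤ 2 ^ k := by
  have h1 : m k h L * (L * h) ≤ 2 ^ k := Nat.div_mul_le_self _ _
  exact_mod_cast h1

/-- many primes are in the middle parts of the cells -/
theorem mid_lower (k h L : ℕ) (cC C₁ : ℝ) (hL : 2 ≤ L) (hh : 1 ≤ h) (hk : 1 ≤ k)
    (hcC : 0 < cC) (hC₁ : 0 < C₁) (hche : cC * 2 ^ k / (k + 1) ≤ ((blk k).card : ℝ))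
    (hbti : ∀ x : ℕ, ((pr x (x + h)).card : ℝ) ≤ C₁ * h / k) (h16 : 16 * C₁ ≤ cC * L)
    (hsmall : (L : ℝ) * h ≤ cC / 8 * (2 ^ k / k)) :
    cC / 4 * (2 ^ k / k) ≤
      ((∑ u ∈ range (m k h L), (pr (s k h L u + h) (s k h L u + (L - 1) * h)).card : ℕ) : ℝ) := by
  have hk0 : (0 : ℝ) < k := by exact_mod_cast hk
  have hk1 : (1 : ℝ) ≤ k := by exact_mod_cast hk
  have hL0 : (0 : ℝ) < L := by exact_mod_cast (by omega : 0 < L)
  have h1 : ((blk k).card : ℝ) ≤ ∑ u ∈ range (m k h L), (((pr (s k h L u) (s k h L u + h)).card : ℝ) +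
      ((pr (s k h L u + h) (s k h L u + (L - 1) * h)).card : ℝ) +
      ((pr (s k h L u + (L - 1) * h) (s k h L u + (L - 1) * h + h)).card : ℝ)) + L * h := by
    exact_mod_cast count k h L hL hh
  rw [Finset.sum_add_distrib, Finset.sum_add_distrib] at h1
  have h2 : ∑ u ∈ range (m k h L), ((pr (s k h L u) (s k h L u + h)).card : ℝ) ≤
      m k h L * (C₁ * h / k) := by
    refine (Finset.sum_le_sum (fun u _ => hbti (s k h L u))).trans (le_of_eq ?_)
    rw [Finset.sum_const, card_range, nsmul_eq_mul]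
  have h3 : ∑ u ∈ range (m k h L),
      ((pr (s k h L u + (L - 1) * h) (s k h L u + (L - 1) * h + h)).card : ℝ) ≤
      m k h L * (C₁ * h / k) := by
    refine (Finset.sum_le_sum (fun u _ => hbti (s k h L u + (L - 1) * h))).trans (le_of_eq ?_)
    rw [Finset.sum_const, card_range, nsmul_eq_mul]
  have h4 : m k h L * (C₁ * h / k) ≤ cC / 16 * (2 ^ k / k) := by
    have h5 := m_le k h L
    have h6 : (m k h L : ℝ) * (C₁ * h / k) = C₁ / L * ((m k h L : ℝ) * (L * h)) / k := by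
      field_simp
    rw [h6]
    have h7 : C₁ / L ≤ cC / 16 := by
      rw [div_le_div_iff₀ hL0 (by norm_num)]
      linarith
    calc C₁ / L * ((m k h L : ℝ) * (L * h)) / k ≤ cC / 16 * 2 ^ k / k := by
          refine div_le_div_of_nonneg_right ?_ hk0.le
          exact mul_le_mul h7 h5 (by positivity) (by positivity)
      _ = cC / 16 * (2 ^ k / k) := by ring
  have h8 : cC / 2 * (2 ^ k / k) ≤ cC * 2 ^ k / (k + 1) := by
    have h9 : cC / 2 * (2 ^ k / k) = cC * 2 ^ k / (2 * k) := by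
      field_simp
    rw [h9]
    exact div_le_div_of_nonneg_left (by positivity) (by positivity) (by linarith)
  push_cast
  linarith

theorem isD (k h L : ℕ) (C₁ : ℝ) (hL : 2 ≤ L) (hh : 1 ≤ h) (hk : 1 ≤ k) (hC₁ : 0 < C₁)
    (hbti : ∀ x : ℕ, ((pr x (x + L * h)).card : ℝ) ≤ C₁ * (L * h) / k)
    (hle : 2 * (1 / (C₁ * L)) * ((k : ℝ) + 1) ^ 2 ≤ √(h : ℝ)) (hhk : (h : ℝ) ≤ 2 ^ k) :
    IsD k (1 / (C₁ * L) * k / √(h : ℝ)) (range (m k h L)) (cell k h L) := by
  have hk0 : (0 : ℝ) < k := by exact_mod_cast hk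
  have hL0 : (0 : ℝ) < L := by exact_mod_cast (by omega : 0 < L)
  have hh0 : (0 : ℝ) < h := by exact_mod_cast hh
  have hsq : (0 : ℝ) < √(h : ℝ) := Real.sqrt_pos.2 hh0
  have hss : √(h : ℝ) * √(h : ℝ) = h := Real.mul_self_sqrt hh0.le
  have hcard : ∀ u, ((cell k h L u).card : ℝ) ≤ C₁ * (L * h) / k := fun u => hbti _
  refine ⟨hk, by positivity, ?_, ?_, ?_, ?_, ?_⟩
  · unfold la
    rw [div_le_div_iff₀ hsq (by positivity), one_mul]
    refine le_trans ?_ hle
    have h1 : (0 : ℝ) ≤ 1 / (C₁ * L) := by positivity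
    have h2 : (k : ℝ) * (2 * ((k : ℝ) + 1)) ≤ 2 * ((k : ℝ) + 1) ^ 2 := by nlinarith
    calc 1 / (C₁ * L) * k * (2 * ((k : ℝ) + 1)) = 1 / (C₁ * L) * (k * (2 * ((k : ℝ) + 1))) := by ring
      _ ≤ 1 / (C₁ * L) * (2 * ((k : ℝ) + 1) ^ 2) := mul_le_mul_of_nonneg_left h2 h1
      _ = _ := by ring
  · intro u hu
    exact cell_sub k h L u (mem_range.1 hu)
  · intro u _ v _ huv
    rw [Finset.disjoint_left]
    intro n hn hn'
    rw [cell, mem_pr] at hn hn'
    exact huv (uniq k h L u v n hn.1.1 hn.1.2 hn'.1.1 hn'.1.2)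
  · intro u _
    calc 1 / (C₁ * L) * k / √(h : ℝ) * ((cell k h L u).card : ℝ)
        ≤ 1 / (C₁ * L) * k / √(h : ℝ) * (C₁ * (L * h) / k) :=
          mul_le_mul_of_nonneg_left (hcard u) (by positivity)
      _ = h / √(h : ℝ) := by field_simp
      _ = √(h : ℝ) := by rw [div_eq_iff hsq.ne', hss]
      _ ≤ e2 (k / 2) := by
          refine Real.sqrt_le_iff.2 ⟨(e2_pos _).le, ?_⟩
          have h3 : e2 ((k : ℝ) / 2) ^ 2 = 2 ^ k := by
            rw [sq, ← e2_add, add_halves, e2_nat]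
          rw [h3]
          exact hhk
  · have h4 : ∑ u ∈ range (m k h L), ((cell k h L u).card : ℝ) ^ 2 ≤
        m k h L * (C₁ * (L * h) / k) ^ 2 := by
      refine (Finset.sum_le_sum (fun u _ => pow_le_pow_left₀ (by positivity) (hcard u) 2)).trans
        (le_of_eq ?_)
      rw [Finset.sum_const, card_range, nsmul_eq_mul]
    calc (1 / (C₁ * L) * k / √(h : ℝ)) ^ 2 * ∑ u ∈ range (m k h L), ((cell k h L u).card : ℝ) ^ 2
        ≤ (1 / (C₁ * L) * k / √(h : ℝ)) ^ 2 * (m k h L * (C₁ * (L * h) / k) ^ 2) :=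
          mul_le_mul_of_nonneg_left h4 (by positivity)
      _ = m k h L * (h ^ 2 / (√(h : ℝ) * √(h : ℝ))) := by
          field_simp
      _ = m k h L * h := by
          rw [hss]
          field_simp
      _ ≤ m k h L * (L * h) := by
          refine mul_le_mul_of_nonneg_left ?_ (by positivity)
          have : (1 : ℝ) ≤ L := by exact_mod_cast (by omega : 1 ≤ L)
          nlinarith
      _ ≤ 2 ^ k := m_le k h L

open Classical in
/-- the main inequality -/
theorem main_block (k h L : ℕ) (b : ℝ) (κ ω : ℕ → ℝ) (P : Set ℕ) (hL : 2 ≤ L) (hb : 0 ≤ b)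
    (hP : ∀ p ∈ P, p.Prime) (hω : ∀ u, ω u = 1 ∨ ω u = -1)
    (hβ : ∑ u ∈ range (m k h L), ω u * ∑ n ∈ SS k h L u,
      ((1 - la k) * ((pr n (n + h)).card : ℝ) - κ n) * ((pr n (n + h)).card : ℝ) ≤ 0)
    (hν : ∑ n ∈ II k h L, ((((pr n (n + h)).filter (· ∈ P)).card : ℝ) -
      ∑ q ∈ pr n (n + h), (1 - la k - b * bi ω (range (m k h L)) (cell k h L) q)) ^ 2 ≤
        7 * (∑ n ∈ II k h L, ((pr n (n + h)).card : ℝ) + 1)) :
    b ^ 2 / 2 * ((∑ n ∈ II k h L, ((pr n (n + h)).card : ℝ)) ^ 2 / 2 ^ k) -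
      7 * (∑ n ∈ II k h L, ((pr n (n + h)).card : ℝ) + 1) ≤
      ∑ n ∈ Ioc (2 ^ k) (2 ^ (k + 1)), (cnt P n h - κ n) ^ 2 := by
  set N : ℕ → ℝ := fun n => ((pr n (n + h)).card : ℝ) with hN
  set ν : ℕ → ℝ := fun n => (((pr n (n + h)).filter (· ∈ P)).card : ℝ) -
      ∑ q ∈ pr n (n + h), (1 - la k - b * bi ω (range (m k h L)) (cell k h L) q) with hνd
  have hcnt : ∀ n, cnt P n h = (((pr n (n + h)).filter (· ∈ P)).card : ℝ) := by
    intro n
    unfold cnt pr
    rw [Finset.filter_filter]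
    congr 2
    refine Finset.filter_congr (fun p _ => ?_)
    constructor
    · intro hp
      exact ⟨hP p hp, hp⟩
    · intro hp
      exact hp.2
  -- one term
  have hterm : ∀ u ∈ range (m k h L), ∀ n ∈ SS k h L u,
      b ^ 2 / 2 * N n ^ 2 - b * (ω u * (((1 - la k) * N n - κ n) * N n)) - ν n ^ 2 ≤
        (cnt P n h - κ n) ^ 2 := by
    intro u hu n hn
    have h1 : ∑ q ∈ pr n (n + h), (1 - la k - b * bi ω (range (m k h L)) (cell k h L) q) =
        N n * (1 - la k - b * ω u) := by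
      have h2 : ∀ q ∈ pr n (n + h), (1 - la k - b * bi ω (range (m k h L)) (cell k h L) q) =
          (1 - la k - b * ω u) := by
        intro q hq
        rw [bi_eq k h L u q ω (mem_range.1 hu) (pr_sub k h L u n hL hn hq)]
      rw [Finset.sum_congr rfl h2, Finset.sum_const, nsmul_eq_mul]
    have h3 : cnt P n h = ν n + N n * (1 - la k - b * ω u) := by
      rw [hcnt n, hνd]
      simp only
      rw [h1]
      ring
    have hω2 : ω u ^ 2 = 1 := by
      rcases hω u with h | h <;> rw [h] <;> norm_num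
    rw [h3]
    set α : ℝ := (1 - la k) * N n - κ n with hα
    have h4 : ν n + N n * (1 - la k - b * ω u) - κ n = (α - b * ω u * N n) + ν n := by
      rw [hα]; ring
    rw [h4]
    have h5 : (α - b * ω u * N n) ^ 2 = α ^ 2 - 2 * (b * (ω u * (α * N n))) + b ^ 2 * N n ^ 2 := by
      have : (α - b * ω u * N n) ^ 2 =
          α ^ 2 - 2 * (b * (ω u * (α * N n))) + b ^ 2 * (ω u ^ 2) * N n ^ 2 := by ring
      rw [this, hω2, mul_one]
    nlinarith [sq_nonneg (α - b * ω u * N n + 2 * ν n), sq_nonneg α]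
  have hII : ∀ f : ℕ → ℝ, ∑ n ∈ II k h L, f n = ∑ u ∈ range (m k h L), ∑ n ∈ SS k h L u, f n := by
    intro f
    unfold II
    refine Finset.sum_biUnion ?_
    intro u hu v hv huv
    exact SS_disj k h L hL u hu v hv huv
  have hsum : b ^ 2 / 2 * ∑ n ∈ II k h L, N n ^ 2 - ∑ n ∈ II k h L, ν n ^ 2 ≤
      ∑ n ∈ II k h L, (cnt P n h - κ n) ^ 2 := by
    have h6 : ∑ u ∈ range (m k h L), ∑ n ∈ SS k h L u,
        (b ^ 2 / 2 * N n ^ 2 - b * (ω u * (((1 - la k) * N n - κ n) * N n)) - ν n ^ 2) ≤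
        ∑ n ∈ II k h L, (cnt P n h - κ n) ^ 2 := by
      rw [hII]
      exact Finset.sum_le_sum (fun u hu => Finset.sum_le_sum (fun n hn => hterm u hu n hn))
    have h7 : ∑ u ∈ range (m k h L), ∑ n ∈ SS k h L u,
        (b ^ 2 / 2 * N n ^ 2 - b * (ω u * (((1 - la k) * N n - κ n) * N n)) - ν n ^ 2) =
        b ^ 2 / 2 * ∑ n ∈ II k h L, N n ^ 2 -
          b * (∑ u ∈ range (m k h L), ω u * ∑ n ∈ SS k h L u, ((1 - la k) * N n - κ n) * N n) -
          ∑ n ∈ II k h L, ν n ^ 2 := by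
      rw [hII, hII]
      simp only [Finset.sum_sub_distrib, Finset.mul_sum]
    have h8 : b * (∑ u ∈ range (m k h L), ω u * ∑ n ∈ SS k h L u,
        ((1 - la k) * N n - κ n) * N n) ≤ 0 := mul_nonpos_of_nonneg_of_nonpos hb hβ
    linarith
  have hcs : (∑ n ∈ II k h L, N n) ^ 2 ≤ 2 ^ k * ∑ n ∈ II k h L, N n ^ 2 := by
    have h9 := sq_sum_le_card_mul_sum_sq (s := II k h L) (f := N)
    refine h9.trans (mul_le_mul_of_nonneg_right ?_ (Finset.sum_nonneg fun n _ => sq_nonneg _))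
    have h10 := Finset.card_le_card (II_sub k h L hL)
    rw [Nat.card_Ioc, pow_succ] at h10
    have h11 : (II k h L).card ≤ 2 ^ k := by omega
    exact_mod_cast h11
  have hle : b ^ 2 / 2 * ((∑ n ∈ II k h L, N n) ^ 2 / 2 ^ k) ≤
      b ^ 2 / 2 * ∑ n ∈ II k h L, N n ^ 2 := by
    refine mul_le_mul_of_nonneg_left ?_ (by positivity)
    rw [div_le_iff₀ (by positivity)]
    linarith
  have hsub : ∑ n ∈ II k h L, (cnt P n h - κ n) ^ 2 ≤
      ∑ n ∈ Ioc (2 ^ k) (2 ^ (k + 1)), (cnt P n h - κ n) ^ 2 :=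
    Finset.sum_le_sum_of_subset_of_nonneg (II_sub k h L hL) (fun n _ _ => sq_nonneg _)
  linarith

/-- the sum of the numbers of the primes is large -/
theorem T_ge (k h L : ℕ) (hL : 2 ≤ L) :
    (h : ℝ) * ((∑ u ∈ range (m k h L), (pr (s k h L u + h) (s k h L u + (L - 1) * h)).card : ℕ) : ℝ) ≤
      ∑ n ∈ II k h L, ((pr n (n + h)).card : ℝ) := by
  have h1 : h * ∑ u ∈ range (m k h L), (pr (s k h L u + h) (s k h L u + (L - 1) * h)).card ≤
      ∑ n ∈ II k h L, (pr n (n + h)).card := by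
    unfold II
    rw [Finset.sum_biUnion (fun u hu v hv huv => SS_disj k h L hL u hu v hv huv), Finset.mul_sum]
    exact Finset.sum_le_sum (fun u _ => double k h L u)
  exact_mod_cast h1

theorem final (k h : ℕ) (c₃ c' T : ℝ) (M : ℕ) (hk : 1 ≤ k) (hh : 1 ≤ h) (hc₃ : 0 < c₃)
    (hc' : 0 < c') (hM : c' * (2 ^ k / k) ≤ (M : ℝ)) (hT : (h : ℝ) * M ≤ T)
    (hbig : 56 ≤ c₃ ^ 2 * c' * k) :
    c₃ ^ 2 * c' ^ 2 / 4 * h * 2 ^ k ≤
      (c₃ * k / √(h : ℝ)) ^ 2 / 2 * (T ^ 2 / 2 ^ k) - 7 * (T + 1) := by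
  have hk0 : (0 : ℝ) < k := by exact_mod_cast hk
  have hh0 : (0 : ℝ) < h := by exact_mod_cast hh
  have hh1 : (1 : ℝ) ≤ h := by exact_mod_cast hh
  have hM0 : (0 : ℝ) < M := lt_of_lt_of_le (by positivity) hM
  have hM1 : (1 : ℝ) ≤ M := by
    have : 0 < M := by exact_mod_cast hM0
    exact_mod_cast this
  have hT1 : 1 ≤ T := by nlinarith
  have hTlow : h * (c' * (2 ^ k / k)) ≤ T :=
    (mul_le_mul_of_nonneg_left hM hh0.le).trans hT
  have h1 : (c₃ * k / √(h : ℝ)) ^ 2 = c₃ ^ 2 * k ^ 2 / h := by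
    rw [div_pow, mul_pow, Real.sq_sqrt hh0.le]
  rw [h1]
  have h2 : c₃ ^ 2 * c' * k / 2 * T ≤ c₃ ^ 2 * k ^ 2 / h / 2 * (T ^ 2 / 2 ^ k) := by
    have h3 : c₃ ^ 2 * k ^ 2 / h / 2 * (T ^ 2 / 2 ^ k) =
        (c₃ ^ 2 * k ^ 2 / (2 * h * 2 ^ k) * T) * T := by
      field_simp
    have h4 : c₃ ^ 2 * c' * k / 2 = (c₃ ^ 2 * k ^ 2 / (2 * h * 2 ^ k)) * (h * (c' * (2 ^ k / k))) := by
      field_simp
    rw [h3, h4]
    refine mul_le_mul_of_nonneg_right ?_ (by linarith)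
    exact mul_le_mul_of_nonneg_left hTlow (by positivity)
  have h5 : c₃ ^ 2 * c' ^ 2 / 4 * h * 2 ^ k ≤ c₃ ^ 2 * c' * k / 4 * T := by
    have h6 : c₃ ^ 2 * c' ^ 2 / 4 * h * 2 ^ k =
        c₃ ^ 2 * c' * k / 4 * (h * (c' * (2 ^ k / k))) := by
      field_simp
    rw [h6]
    exact mul_le_mul_of_nonneg_left hTlow (by positivity)
  have h7 : 14 * T ≤ c₃ ^ 2 * c' * k / 4 * T := mul_le_mul_of_nonneg_right (by linarith) (by linarith)
  have h8 : c₃ ^ 2 * c' * k / 2 * T = c₃ ^ 2 * c' * k / 4 * T + c₃ ^ 2 * c' * k / 4 * T := by ring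
  linarith

end T5

theorem t5 (hCHE : LT.S_CHE) (hBTI : S_BTI) (hPG : S_PG) : S_T5 := by
  classical
  intro ε H hε hε1 hH κ c hc
  obtain ⟨k₀, hH⟩ := hH
  obtain ⟨cC, hcC, hche⟩ := hCHE
  obtain ⟨C₁, kB, hC₁, hB⟩ := hBTI ε hε hε1
  set L : ℕ := ⌈16 * C₁ / cC⌉₊ + 2 with hLd
  have hL : 2 ≤ L := by omega
  have hL0 : (0 : ℝ) < L := by exact_mod_cast (by omega : 0 < L)
  have h16 : 16 * C₁ ≤ cC * L := by
    have h1 : 16 * C₁ / cC ≤ L := by
      rw [hLd]
      push_cast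
      have := Nat.le_ceil (16 * C₁ / cC)
      linarith
    rw [div_le_iff₀ hcC] at h1
    linarith
  set c₃ : ℝ := 1 / (C₁ * L) with hc₃
  have hc₃0 : 0 < c₃ := by positivity
  obtain ⟨k₂, hk₂⟩ := T5.big (2 * c₃) (ε / 2) (by linarith)
  obtain ⟨k₃, hk₃⟩ := T5.big (8 * L / cC) ε hε
  set k₄ : ℕ := ⌈56 / (c₃ ^ 2 * (cC / 4))⌉₊ with hk₄
  set K : ℕ := max (max (max k₀ kB) (max k₂ k₃)) (max k₄ 1) with hK
  -- the conditions for large `k`
  have hcond : ∀ k, K ≤ k → 1 ≤ k ∧ 1 ≤ H k ∧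
      (∀ x : ℕ, ((T5.pr x (x + H k)).card : ℝ) ≤ C₁ * H k / k) ∧
      (∀ x : ℕ, ((T5.pr x (x + L * H k)).card : ℝ) ≤ C₁ * (L * H k) / k) ∧
      2 * c₃ * ((k : ℝ) + 1) ^ 2 ≤ √(H k : ℝ) ∧ (H k : ℝ) ≤ 2 ^ k ∧
      (L : ℝ) * H k ≤ cC / 8 * (2 ^ k / k) ∧ 56 ≤ c₃ ^ 2 * (cC / 4) * k := by
    intro k hk
    have e1 : k₀ ≤ k := (le_trans (le_trans (le_max_left _ _) (le_max_left _ _)) (le_max_left _ _)).trans hk
    have e2' : kB ≤ k := (le_trans (le_trans (le_max_right _ _) (le_max_left _ _)) (le_max_left _ _)).trans hk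
    have e3 : k₂ ≤ k := (le_trans (le_trans (le_max_left _ _) (le_max_right _ _)) (le_max_left _ _)).trans hk
    have e4 : k₃ ≤ k := (le_trans (le_trans (le_max_right _ _) (le_max_right _ _)) (le_max_left _ _)).trans hk
    have e5 : k₄ ≤ k := (le_trans (le_max_left _ _) (le_max_right _ _)).trans hk
    have e6 : 1 ≤ k := (le_trans (le_max_right _ _) (le_max_right _ _)).trans hk
    have hk0 : (0 : ℝ) < k := by exact_mod_cast e6
    have hk1 : (1 : ℝ) ≤ k := by exact_mod_cast e6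
    obtain ⟨hH1, hH2⟩ := hH k e1
    have hHpos : (0 : ℝ) < H k := lt_of_lt_of_le (T5.e2_pos _) hH1
    have hHnat : 1 ≤ H k := by
      have : 0 < H k := by exact_mod_cast hHpos
      omega
    refine ⟨e6, hHnat, fun x => ?_, fun x => ?_, ?_, ?_, ?_, ?_⟩
    · exact hB k e2' (H k) x hH1
    · have h1 : e2 (ε * k) ≤ ((L * H k : ℕ) : ℝ) := by
        refine hH1.trans ?_
        exact_mod_cast Nat.le_mul_of_pos_left (H k) (by omega : 0 < L)
      have h2 := hB k e2' (L * H k) x h1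
      push_cast at h2
      exact h2
    · refine (hk₂ k e3).trans ?_
      refine Real.le_sqrt_of_sq_le ?_
      rw [sq, ← T5.e2_add]
      have h1 : ε / 2 * (k : ℝ) + ε / 2 * k = ε * k := by ring
      rw [h1]
      exact hH1
    · refine hH2.trans ?_
      rw [← T5.e2_nat k]
      refine T5.e2_mono ?_
      nlinarith
    · have h1 := hk₃ k e4
      have h2 : e2 ((1 - ε) * k) * e2 (ε * k) = 2 ^ k := by
        rw [← T5.e2_add, ← T5.e2_nat k]
        congr 1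
        ring
      have h3 : 8 * L / cC * k ≤ e2 (ε * k) := by
        refine le_trans ?_ h1
        refine mul_le_mul_of_nonneg_left ?_ (by positivity)
        nlinarith
      have h4 : (L : ℝ) * H k * (8 / cC * k) ≤ 2 ^ k := by
        calc (L : ℝ) * H k * (8 / cC * k) = H k * (8 * L / cC * k) := by ring
          _ ≤ e2 ((1 - ε) * k) * e2 (ε * k) :=
            mul_le_mul hH2 h3 (by positivity) (T5.e2_pos _).le
          _ = 2 ^ k := h2
      have h5 : (L : ℝ) * H k = (L : ℝ) * H k * (8 / cC * k) * (cC / 8 / k) := by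
        field_simp
      rw [h5]
      calc (L : ℝ) * H k * (8 / cC * k) * (cC / 8 / k) ≤ 2 ^ k * (cC / 8 / k) :=
            mul_le_mul_of_nonneg_right h4 (by positivity)
        _ = cC / 8 * (2 ^ k / k) := by ring
    · have h1 : 56 / (c₃ ^ 2 * (cC / 4)) ≤ k := by
        refine (Nat.le_ceil _).trans ?_
        exact_mod_cast e5
      rw [div_le_iff₀ (by positivity)] at h1
      linarith
  obtain ⟨P, w, C, hP, hw, hcl, hmain⟩ := hPG (fun k => c₃ * k / √(H k : ℝ))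
    (fun k => range (T5.m k (H k) L)) (fun k => T5.cell k (H k) L)
    (fun k u => ∑ n ∈ T5.SS k (H k) L u, ((1 - la k) * ((T5.pr n (n + H k)).card : ℝ) - κ k n) *
      ((T5.pr n (n + H k)).card : ℝ))
    (fun k => T5.II k (H k) L) (fun k n => T5.pr n (n + H k)) K
    (by
      intro k hk
      obtain ⟨h1, h2, h3, h4, h5, h6, h7, h8⟩ := hcond k hk
      refine ⟨T5.isD k (H k) L C₁ hL h2 h1 hC₁ h4 h5 h6, fun n hn => ?_⟩
      rw [T5.II, mem_biUnion] at hn
      obtain ⟨u, hu, hn⟩ := hn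
      exact (T5.pr_sub k (H k) L u n hL hn).trans (T5.cell_sub k (H k) L u (mem_range.1 hu)))
    c hc
  refine ⟨P, w, c₃ ^ 2 * (cC / 4) ^ 2 / 4, K, by positivity, hP, hw, hcl, fun k hk => ?_⟩
  obtain ⟨h1, h2, h3, h4, h5, h6, h7, h8⟩ := hcond k hk
  obtain ⟨ω, hω, -, hβ, hν⟩ := hmain k hk
  have hb : 0 ≤ c₃ * k / √(H k : ℝ) := by positivity
  have hA := T5.main_block k (H k) L (c₃ * k / √(H k : ℝ)) (κ k) ω P hL hb hP hω hβ hν
  refine le_trans ?_ hA
  exact T5.final k (H k) c₃ (cC / 4) _ _ h1 h2 hc₃0 (by positivity)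
    (T5.mid_lower k (H k) L cC C₁ hL h2 h1 hcC hC₁ (hche k) h3 h16 h7) (T5.T_ge k (H k) L hL) h8

end Pool.Agent.H414.GV
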